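import Pool.Agent.Helper35.SEY.IndPair

/-!
IND-5 (the pairs of an element `c` of type `(a1, b1)` and a deleted element `d`).

pair_zero: suppose `ρ d = 1`.  Then `HasMinor (pairRows t) M`, contradiction to `pair` (IndPair).
The function is `Fin.snoc (Fin.snoc φ d) c : Fin 14 → E`, the contracted set is `C.erase c`.
Injective: `φ` is injective, `d ≠ φ i`, `c ≠ φ i`, `c ≠ d` (`mem_rest`, field out of `Lab`).
Rows: for `i : Fin 6` the row `F i` of r1 (it vanishes on `C`, so at `c`, its value at `d` is
`R12 i (P1 t) + R12 i (P2 t)` by `ht`), it is the row `pairRows t i.castSucc`; the last row of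
`pairRows t` is `![1, 0, 0, 1, 0, ..., 0, 1, 1]` = the values of `ρ` (`h3`, `ρ d = 1`, `ρ c = 1`).
Conversely let `f ∈ M.R` vanish on `C.erase c`.  Then `g = f + f c • ρ` vanishes on `C`, so
`g (φ j) = ∑ a i * R12 i j` (r2), `g d = g (φ (P1 t)) + g (φ (P2 t))`, `g c = 0`, and `f = g + f c • ρ`: the
coefficients are `Fin.snoc a (f c)` (`Fin.sum_univ_castSucc`).
-/

namespace SEY.Ind

open Finset BM SEY.Sp

variable {E : Type} [Fintype E] [DecidableEq E] {M : BM E} {φ : Fin 12 → E} {C : Finset E}

theorem snoc_inj {α : Type} {n : ℕ} {f : Fin n → α} {a : α} (hf : Function.Injective f)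
    (ha : ∀ i, f i ≠ a) : Function.Injective (Fin.snoc (α := fun _ => α) f a) := by
  intro i j hij
  induction i using Fin.lastCases with
  | last =>
    induction j using Fin.lastCases with
    | last => rfl
    | cast j =>
      rw [Fin.snoc_last, Fin.snoc_castSucc] at hij
      exact absurd hij.symm (ha j)
  | cast i =>
    induction j using Fin.lastCases with
    | last =>
      rw [Fin.snoc_last, Fin.snoc_castSucc] at hij
      exact absurd hij (ha i)
    | cast j =>
      rw [Fin.snoc_castSucc, Fin.snoc_castSucc] at hij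
      rw [hf hij]

theorem lastRow (t : Fin 4) (j : Fin 12) : pairRows t (Fin.last 6) j.castSucc.castSucc =
    if j = Q1 3 ∨ j = Q2 3 then 1 else 0 := by
  unfold pairRows
  rw [Fin.snoc_last]
  revert j
  decide

theorem pairRows_c (t : Fin 4) (i : Fin 6) : pairRows t i.castSucc (Fin.last 13) = 0 := by
  unfold pairRows
  rw [Fin.snoc_castSucc, Fin.snoc_last]

theorem pairRows_d (t : Fin 4) (i : Fin 6) : pairRows t i.castSucc (Fin.last 12).castSucc =
    R12 i (P1 t) + R12 i (P2 t) := by
  unfold pairRows SEY.Sp.ext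
  rw [Fin.snoc_castSucc, Fin.snoc_castSucc, Fin.snoc_last]

theorem pairRows_j (t : Fin 4) (i : Fin 6) (j : Fin 12) :
    pairRows t i.castSucc j.castSucc.castSucc = R12 i j := by
  unfold pairRows SEY.Sp.ext
  rw [Fin.snoc_castSucc, Fin.snoc_castSucc, Fin.snoc_castSucc]

theorem pair_zero (hF : NoF M) (h : Lab R12 M φ C) {c : E} (hc : c ∈ C) {ρ : E → ZMod 2}
    (hρ : ρ ∈ M.R) (h1 : ∀ x ∈ C.erase c, ρ x = 0) (h2 : ρ c = 1)
    (h3 : ∀ i, ρ (φ i) = if i = Q1 3 ∨ i = Q2 3 then 1 else 0) {d : E} (hd : d ∈ rest M φ C)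
    {t : Fin 4}
    (ht : ∀ f ∈ M.R, (∀ c ∈ C, f c = 0) → f d = f (φ (P1 t)) + f (φ (P2 t))) : ρ d = 0 := by
  classical
  by_contra hne
  have hd1 : ρ d = 1 := (zcases (ρ d)).resolve_left hne
  have hdm := mem_rest.1 hd
  have hcS := h.sub hc
  set ψ : Fin 14 → E := Fin.snoc (α := fun _ => E) (Fin.snoc (α := fun _ => E) φ d) c with hψ
  have ψc : ψ (Fin.last 13) = c := by rw [hψ, Fin.snoc_last]
  have ψd : ψ (Fin.last 12).castSucc = d := by rw [hψ, Fin.snoc_castSucc, Fin.snoc_last]
  have ψj : ∀ j : Fin 12, ψ j.castSucc.castSucc = φ j := fun j => by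
    rw [hψ, Fin.snoc_castSucc, Fin.snoc_castSucc]
  have hlast : ∀ j, ρ (ψ j) = pairRows t (Fin.last 6) j := by
    intro j
    induction j using Fin.lastCases with
    | last =>
      rw [ψc, h2]
      unfold pairRows
      rw [Fin.snoc_last]
      rfl
    | cast j =>
      induction j using Fin.lastCases with
      | last =>
        rw [ψd, hd1]
        unfold pairRows
        rw [Fin.snoc_last]
        rfl
      | cast j => rw [ψj, lastRow, h3]
  have hcomb : ∀ g ∈ M.R, (∀ x ∈ C, g x = 0) → ∀ a : Fin 6 → ZMod 2,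
      (∀ j, g (φ j) = ∑ i, a i * R12 i j) →
      ∀ j, g (ψ j) = ∑ i : Fin 6, a i * pairRows t i.castSucc j := by
    intro g hg hgC a ha j
    induction j using Fin.lastCases with
    | last =>
      rw [ψc, hgC c hc]
      symm
      refine Finset.sum_eq_zero fun i _ => ?_
      rw [pairRows_c, mul_zero]
    | cast j =>
      induction j using Fin.lastCases with
      | last =>
        rw [ψd, ht g hg hgC, ha, ha, ← Finset.sum_add_distrib]
        refine Finset.sum_congr rfl fun i _ => ?_
        rw [pairRows_d, mul_add]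
      | cast j =>
        rw [ψj, ha]
        refine Finset.sum_congr rfl fun i _ => ?_
        rw [pairRows_j]
  refine pair hF t (hasMinor_iff.2 ⟨ψ, C.erase c, ?_, ?_, ?_, ?_, ?_, ?_⟩)
  · refine snoc_inj (snoc_inj h.inj hdm.2.2) fun i => ?_
    induction i using Fin.lastCases with
    | last =>
      rw [Fin.snoc_last]
      intro hdc
      exact hdm.2.1 (by rw [hdc]; exact hc)
    | cast i =>
      rw [Fin.snoc_castSucc]
      intro hdc
      exact h.out i (by rw [hdc]; exact hc)
  · intro i
    induction i using Fin.lastCases with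
    | last => rw [ψc]; exact hcS
    | cast i =>
      induction i using Fin.lastCases with
      | last => rw [ψd]; exact hdm.1
      | cast i => rw [ψj]; exact h.mem i
  · exact fun x hx => h.sub (Finset.mem_erase.1 hx).2
  · intro i hi
    rw [Finset.mem_erase] at hi
    induction i using Fin.lastCases with
    | last => exact hi.1 ψc
    | cast i =>
      induction i using Fin.lastCases with
      | last =>
        rw [ψd] at hi
        exact hdm.2.1 hi.2
      | cast i =>
        rw [ψj] at hi
        exact h.out i hi.2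
  · intro i
    induction i using Fin.lastCases with
    | last => exact ⟨ρ, hρ, h1, hlast⟩
    | cast i =>
      obtain ⟨f, hf, hfC, hfφ⟩ := h.r1 i
      refine ⟨f, hf, fun x hx => hfC x (Finset.mem_erase.1 hx).2, fun j => ?_⟩
      rw [hcomb f hf hfC (Pi.single i 1) (fun j => by
        rw [hfφ, Finset.sum_eq_single i]
        · rw [Pi.single_eq_same, one_mul]
        · intro i' _ hi'
          rw [Pi.single_eq_of_ne hi', zero_mul]
        · intro hi'
          exact absurd (Finset.mem_univ _) hi') j, Finset.sum_eq_single i]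
      · rw [Pi.single_eq_same, one_mul]
      · intro i' _ hi'
        rw [Pi.single_eq_of_ne hi', zero_mul]
      · intro hi'
        exact absurd (Finset.mem_univ _) hi'
  · intro f hf hfC
    have hg : f + f c • ρ ∈ M.R := M.R.add_mem hf (M.R.smul_mem _ hρ)
    have hgC : ∀ x ∈ C, (f + f c • ρ) x = 0 := by
      intro x hx
      by_cases hxc : x = c
      · rw [hxc, Pi.add_apply, Pi.smul_apply, h2, smul_eq_mul, mul_one]
        rcases zcases (f c) with h0 | h0 <;> rw [h0] <;> decide
      · rw [Pi.add_apply, Pi.smul_apply, hfC x (Finset.mem_erase.2 ⟨hxc, hx⟩),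
          h1 x (Finset.mem_erase.2 ⟨hxc, hx⟩), smul_zero, add_zero]
    obtain ⟨a, ha⟩ := h.r2 _ hg hgC
    refine ⟨Fin.snoc (α := fun _ => ZMod 2) a (f c), fun j => ?_⟩
    have h5 := hcomb _ hg hgC a ha j
    rw [Fin.sum_univ_castSucc, Fin.snoc_last, ← hlast]
    simp only [Fin.snoc_castSucc]
    rw [← h5, Pi.add_apply, Pi.smul_apply, smul_eq_mul]
    rcases zcases (f c) with h0 | h0
    · rw [h0]
      ring
    · rw [h0, one_mul, add_assoc]
      rcases zcases (ρ (ψ j)) with h6 | h6 <;> rw [h6]
      · rw [add_zero, add_zero]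
      · have h7 : (1 : ZMod 2) + 1 = 0 := by decide
        rw [h7, add_zero]

end SEY.Ind
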