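import Pool.Agent.Helper35.SEY.IndLam
import Pool.Agent.Helper35.SEY.IndZero

/-!
IND-6 (assembly of the separation).  Choose `t c`, `ρ c` for `c ∈ C` (hC) and `u d` for
`d ∈ rest M φ C` (hD).  `X = image of {i | i < 6} under φ, union {c ∈ C | t c = 3}`.  `X ⊆ M.S`, `X` contains
the `φ i` with `i < 6` and no `φ i` with `6 ≤ i` (`φ` injective, `φ i ∉ C`).  `M.lam X ≤ 2` by `lam_le_two`
with `g1`, `g2` = the rows `F 2`, `F 3`, where `F k ∈ M.R`, `F k|C = 0`, `F k (φ j) = R12 k j` (field r1).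

(1) Each `mask X (ρ c)` is in `M.R`: if `t c = 3` then `ρ c` vanishes outside `X` (on `C.erase c`; on the
`φ i` except `i = Q1 3 = 0` and `i = Q2 3 = 3`, both `< 6`; on `rest M φ C` by `pair_zero`; outside `M.S`),
so `mask X (ρ c) = ρ c`.  If `t c ≠ 3` then `ρ c` vanishes on `X` (`c ∉ X`; `Q1 (t c)`, `Q2 (t c)` are `≥ 6`),
so `mask X (ρ c) = 0`.
(2) Let `f ∈ M.R`, `f1 = f + ∑ c ∈ C, f c • ρ c`; it vanishes on `C`.  Field r2: `f1 (φ j) = ∑ a k * R12 k j`.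
Let `f2 = f1 + a 2 • F 2 + a 3 • F 3`: `f2 (φ j) = a 0 * R12 0 j + a 1 * R12 1 j + a 4 * R12 4 j + a 5 * R12 5 j`.
Let `g = a 0 • F 0 + a 1 • F 1`.  Then `mask X f2 = g`: on `φ j`, `j < 6`: rows 4 and 5 of `R12` are zero
there; on `φ j`, `6 ≤ j`: rows 0 and 1 are zero there; on `C` both sides are zero; on
`d ∈ rest M φ C`: `g d = g (φ (P1 t)) + g (φ (P2 t)) = 0` by hD for all four `t` (rows 0 and 1 of `R12` agree
on the columns `P1 t`, `P2 t`, by `decide`) and `d ∉ X`; outside `M.S` both are zero.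
So `mask X (f + a 2 • F 2 + a 3 • F 3) = g + ∑ c ∈ C, f c • mask X (ρ c)` (characteristic 2) is in `M.R`.
-/

namespace SEY.Ind

open Finset BM SEY.Sp

variable {E : Type} [Fintype E] [DecidableEq E] {M : BM E} {φ : Fin 12 → E} {C : Finset E}

private lemma ia_dec1 : ∀ i : Fin 12, ¬ i < 6 → ¬ (i = Q1 3 ∨ i = Q2 3) := by decide

private lemma ia_dec2 : ∀ t : Fin 4, t ≠ 3 → ∀ i : Fin 12, i < 6 → ¬ (i = Q1 t ∨ i = Q2 t) := by
  decide

private lemma ia_dec3 : ∀ j : Fin 12, (j < 6 → R12 4 j = 0 ∧ R12 5 j = 0) ∧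
    (¬ j < 6 → R12 0 j = 0 ∧ R12 1 j = 0) := by decide

private lemma ia_dec4 : ∀ t : Fin 4, R12 0 (P1 t) = R12 0 (P2 t) ∧
    R12 1 (P1 t) = R12 1 (P2 t) := by decide

private lemma ia_char2 (a0 a1 a2 a3 x0 x1 x2 x3 : ZMod 2) :
    a0 * x0 + a1 * x1 + a2 * x2 + a3 * x3 + 0 + 0 + a2 * x2 + a3 * x3 = a0 * x0 + a1 * x1 := by
  have h2 : (2 : ZMod 2) = 0 := rfl
  linear_combination (a2 * x2 + a3 * x3) * h2

theorem assembly (hF : NoF M) (h : Lab R12 M φ C)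
    (hD : ∀ d ∈ rest M φ C, ∃ t : Fin 4, ∀ f ∈ M.R, (∀ c ∈ C, f c = 0) →
      f d = f (φ (P1 t)) + f (φ (P2 t)))
    (hC : ∀ c ∈ C, ∃ t : Fin 4, ∃ ρ ∈ M.R, (∀ x ∈ C.erase c, ρ x = 0) ∧ ρ c = 1 ∧
      ∀ i, ρ (φ i) = if i = Q1 t ∨ i = Q2 t then 1 else 0) : Good M φ := by
  classical
  choose F hFR hFC hFφ using h.r1
  have hC' : ∀ c : E, ∃ (t : Fin 4) (ρ : E → ZMod 2), c ∈ C → (ρ ∈ M.R ∧
      (∀ x ∈ C.erase c, ρ x = 0) ∧ ρ c = 1 ∧
      ∀ i, ρ (φ i) = if i = Q1 t ∨ i = Q2 t then 1 else 0) := by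
    intro c
    by_cases hc : c ∈ C
    · obtain ⟨t, ρ, h1, h2, h3, h4⟩ := hC c hc
      exact ⟨t, ρ, fun _ => ⟨h1, h2, h3, h4⟩⟩
    · exact ⟨0, 0, fun h => absurd h hc⟩
  choose t ρ hρ using hC'
  obtain ⟨X, hX⟩ : ∃ X : Finset E, X = (univ.filter (fun i : Fin 12 => i < 6)).image φ ∪
      C.filter (fun c => t c = 3) := ⟨_, rfl⟩
  have memX : ∀ e, e ∈ X ↔ (∃ i : Fin 12, i < 6 ∧ φ i = e) ∨ (e ∈ C ∧ t e = 3) := by
    intro e
    rw [hX]
    simp only [Finset.mem_union, Finset.mem_image, Finset.mem_filter, Finset.mem_univ, true_and]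
  have hXS : X ⊆ M.S := by
    intro e he
    rcases (memX e).1 he with ⟨i, -, rfl⟩ | ⟨h1, -⟩
    · exact h.mem i
    · exact h.sub h1
  have hXφ : ∀ i, φ i ∈ X ↔ i < 6 := by
    intro i
    rw [memX]
    constructor
    · rintro (⟨j, hj, hij⟩ | ⟨h1, -⟩)
      · rwa [← h.inj hij]
      · exact absurd h1 (h.out i)
    · intro hi
      exact Or.inl ⟨i, hi, rfl⟩
  have hXC : ∀ c ∈ C, c ∈ X ↔ t c = 3 := by
    intro c hc
    rw [memX]
    constructor
    · rintro (⟨j, -, hj⟩ | ⟨-, h1⟩)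
      · exact absurd (hj ▸ hc) (h.out j)
      · exact h1
    · intro h1
      exact Or.inr ⟨hc, h1⟩
  have hXr : ∀ d ∈ rest M φ C, d ∉ X := by
    intro d hd hdX
    rw [mem_rest] at hd
    rcases (memX d).1 hdX with ⟨i, -, hi⟩ | ⟨h1, -⟩
    · exact hd.2.2 i hi
    · exact hd.2.1 h1
  have cases4 : ∀ e, (∃ i, φ i = e) ∨ e ∈ C ∨ e ∈ rest M φ C ∨ e ∉ M.S := by
    intro e
    by_cases h1 : ∃ i, φ i = e
    · exact Or.inl h1
    by_cases h2 : e ∈ C
    · exact Or.inr (Or.inl h2)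
    by_cases h3 : e ∈ M.S
    · refine Or.inr (Or.inr (Or.inl ?_))
      rw [mem_rest]
      exact ⟨h3, h2, fun i hi => h1 ⟨i, hi⟩⟩
    · exact Or.inr (Or.inr (Or.inr h3))
  have hmρ : ∀ c ∈ C, mask X (ρ c) ∈ M.R := by
    intro c hc
    obtain ⟨h1, h2, h3, h4⟩ := hρ c hc
    by_cases htc : t c = 3
    · have h5 : mask X (ρ c) = ρ c := by
        apply mask_eq_self
        intro e he
        rcases cases4 e with ⟨i, rfl⟩ | h6 | h6 | h6
        · rw [h4 i, htc, if_neg]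
          exact ia_dec1 i (fun h7 => he ((hXφ i).2 h7))
        · apply h2
          rw [Finset.mem_erase]
          refine ⟨?_, h6⟩
          rintro rfl
          exact he ((hXC e h6).2 htc)
        · obtain ⟨t', ht'⟩ := hD e h6
          rw [htc] at h4
          exact pair_zero hF h hc h1 h2 h3 h4 h6 ht'
        · exact M.supp _ h1 e h6
      rw [h5]
      exact h1
    · have h5 : mask X (ρ c) = 0 := by
        rw [mask_eq_zero_iff]
        intro e he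
        rcases (memX e).1 he with ⟨i, hi, rfl⟩ | ⟨h6, h7⟩
        · rw [h4 i, if_neg]
          exact ia_dec2 _ htc i hi
        · apply h2
          rw [Finset.mem_erase]
          refine ⟨?_, h6⟩
          rintro rfl
          exact htc h7
      rw [h5]
      exact M.R.zero_mem
  refine ⟨X, hXS, fun i hi => (hXφ i).2 hi,
    fun i hi h' => absurd ((hXφ i).1 h') (not_lt.2 hi), ?_⟩
  apply lam_le_two hXS (hFR 2) (hFR 3)
  intro f hf
  obtain ⟨s, hs⟩ : ∃ s : E → ZMod 2, s = ∑ c ∈ C, f c • ρ c := ⟨_, rfl⟩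
  have hsR : s ∈ M.R := by
    rw [hs]
    exact M.R.sum_mem fun c hc => M.R.smul_mem _ (hρ c hc).1
  have hsC : ∀ x ∈ C, s x = f x := by
    intro x hx
    rw [hs, Finset.sum_apply, Finset.sum_eq_single_of_mem x hx]
    · rw [Pi.smul_apply, (hρ x hx).2.2.1, smul_eq_mul, mul_one]
    · intro c hc hcx
      rw [Pi.smul_apply, (hρ c hc).2.1 x (Finset.mem_erase.2 ⟨hcx.symm, hx⟩), smul_zero]
  have hmsR : mask X s ∈ M.R := by
    rw [hs, map_sum]
    refine M.R.sum_mem fun c hc => ?_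
    rw [map_smul]
    exact M.R.smul_mem _ (hmρ c hc)
  have hf1R : f + s ∈ M.R := M.R.add_mem hf hsR
  have hf1C : ∀ c ∈ C, (f + s) c = 0 := by
    intro c hc
    rw [Pi.add_apply, hsC c hc, z_add_self]
  obtain ⟨a, ha⟩ := h.r2 (f + s) hf1R hf1C
  refine ⟨a 2, a 3, ?_⟩
  obtain ⟨g, hg⟩ : ∃ g : E → ZMod 2, g = a 0 • F 0 + a 1 • F 1 := ⟨_, rfl⟩
  have hgR : g ∈ M.R := by
    rw [hg]
    exact M.R.add_mem (M.R.smul_mem _ (hFR 0)) (M.R.smul_mem _ (hFR 1))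
  have hgC : ∀ c ∈ C, g c = 0 := by
    intro c hc
    rw [hg]
    simp only [Pi.add_apply, Pi.smul_apply, hFC _ c hc, smul_zero, add_zero]
  have hgφ : ∀ i, g (φ i) = a 0 * R12 0 i + a 1 * R12 1 i := by
    intro i
    rw [hg]
    simp only [Pi.add_apply, Pi.smul_apply, hFφ, smul_eq_mul]
  have key : mask X (f + s + a 2 • F 2 + a 3 • F 3) = g := by
    funext e
    rw [mask_apply]
    rcases cases4 e with ⟨i, rfl⟩ | h6 | h6 | h6
    · rw [hgφ]
      by_cases hi : i < 6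
      · rw [if_pos ((hXφ i).2 hi)]
        obtain ⟨h7, h8⟩ := (ia_dec3 i).1 hi
        have h9 : (f + s + a 2 • F 2 + a 3 • F 3) (φ i) =
            (f + s) (φ i) + a 2 * R12 2 i + a 3 * R12 3 i := by
          simp only [Pi.add_apply, Pi.smul_apply, hFφ, smul_eq_mul]
        rw [h9, ha, Fin.sum_univ_six, h7, h8, mul_zero, mul_zero]
        exact ia_char2 _ _ _ _ _ _ _ _
      · rw [if_neg (fun h => hi ((hXφ i).1 h))]
        obtain ⟨h7, h8⟩ := (ia_dec3 i).2 hi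
        rw [h7, h8, mul_zero, mul_zero, add_zero]
    · rw [hgC e h6]
      have h9 : (f + s + a 2 • F 2 + a 3 • F 3) e = 0 := by
        have h10 := hf1C e h6
        simp only [Pi.add_apply, Pi.smul_apply, hFC _ e h6, smul_zero, add_zero] at h10 ⊢
        exact h10
      rw [h9, ite_self]
    · rw [if_neg (hXr e h6)]
      obtain ⟨t', ht'⟩ := hD e h6
      rw [ht' g hgR hgC, hgφ, hgφ, (ia_dec4 t').1, (ia_dec4 t').2, z_add_self]
    · rw [if_neg (fun h => h6 (hXS h)), M.supp g hgR e h6]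
  have h10 : f + a 2 • F 2 + a 3 • F 3 = (f + s + a 2 • F 2 + a 3 • F 3) + s := by
    funext e
    simp only [Pi.add_apply, Pi.smul_apply, smul_eq_mul]
    have h2 : (2 : ZMod 2) = 0 := rfl
    linear_combination (-s e) * h2
  rw [h10, map_add, key]
  exact M.R.add_mem hgR hmsR

end SEY.Ind
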