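import Pool.Agent.Helper35.SEY.IndDual
import Pool.Agent.Helper35.SEY.IndAsm

/-!
IND: the induced 3-separation of `R12`.
-/

namespace SEY.Ind

open Finset BM SEY.Sp

variable {E : Type} [Fintype E] [DecidableEq E]

theorem good_of_lab (m : ℕ) : ∀ M : BM E, NoF M → M.S.card < m →
    ∀ (φ : Fin 12 → E) (C : Finset E), Lab R12 M φ C → Good M φ := by
  induction m with
  | zero => intro M _ h; omega
  | succ m ih =>
    intro M hF hm φ C h
    by_contra hG
    have hI : IH E M.S.card := fun M' hF' hm' φ' C' h' => ih M' hF' (by omega) φ' C' h'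
    exact hG (assembly hF h (fun d hd => dside hF hI hG h hd) (fun c hc => cside hF hI hG h hc))

theorem R12_sep' (M : BM E) (hF : NoF M) (h : HasMinor R12 M) :
    ∃ A ⊆ M.S, 6 ≤ A.card ∧ 6 ≤ (M.S \ A).card ∧ M.lam A ≤ 2 := by
  obtain ⟨φ, C, h⟩ := hasMinor_iff.1 h
  obtain ⟨X, hX, h1, h2, h3⟩ := good_of_lab (M.S.card + 1) M hF (by omega) φ C h
  refine ⟨X, hX, ?_, ?_, h3⟩
  · have h4 : (univ.filter (fun i : Fin 12 => i < 6)).image φ ⊆ X := by
      intro e he
      obtain ⟨i, hi, rfl⟩ := Finset.mem_image.1 he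
      exact h1 i (Finset.mem_filter.1 hi).2
    have h5 := Finset.card_le_card h4
    rw [Finset.card_image_of_injective _ h.inj] at h5
    have h6 : (univ.filter (fun i : Fin 12 => i < 6)).card = 6 := by decide
    omega
  · have h4 : (univ.filter (fun i : Fin 12 => 6 ≤ i)).image φ ⊆ M.S \ X := by
      intro e he
      obtain ⟨i, hi, rfl⟩ := Finset.mem_image.1 he
      exact Finset.mem_sdiff.2 ⟨h.mem i, h2 i (Finset.mem_filter.1 hi).2⟩
    have h5 := Finset.card_le_card h4
    rw [Finset.card_image_of_injective _ h.inj] at h5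
    have h6 : (univ.filter (fun i : Fin 12 => 6 ≤ i)).card = 6 := by decide
    omega

end SEY.Ind
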