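import Pool.Agent.Helper35.SEY.IndDefs

/-!
One-element extensions of R12 (block IND): certificates of Fano minors.
-/

namespace SEY.Ind

open Finset BM SEY.Sp

variable {E : Type} [Fintype E] [DecidableEq E] {M : BM E}

theorem bad6 (hF : NoF M) (h : HasMinor (ext R12 ![0, 1, 1, 0, 0, 0]) M) : False :=
  hF.1 (h.of_finCert compl_F7 (φ := ![1, 3, 8, 12, 4, 7, 5]) (C := {0, 6, 9})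
    (a := ![![0, 1, 0, 0, 0, 0], ![0, 0, 1, 0, 0, 0], ![0, 0, 0, 1, 0, 0]])
    (z := ![![1, 1, 0, 1, 0, 0, 0, 0, 0, 0, 0, 0, 1], ![0, 1, 0, 0, 1, 0, 1, 0, 1, 0, 0, 0, 0], ![1, 0, 0, 1, 0, 0, 0, 1, 1, 0, 0, 0, 0], ![0, 1, 0, 1, 0, 1, 1, 0, 1, 0, 0, 0, 0]])
    (by decide))

theorem bad7 (hF : NoF M) (h : HasMinor (ext R12 ![1, 1, 1, 0, 0, 0]) M) : False :=
  hF.1 (h.of_finCert compl_F7 (φ := ![1, 3, 8, 12, 4, 7, 5]) (C := {0, 6, 9})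
    (a := ![![0, 1, 0, 0, 0, 0], ![0, 0, 1, 0, 0, 0], ![0, 0, 0, 1, 0, 0]])
    (z := ![![0, 1, 0, 1, 0, 0, 0, 0, 0, 0, 0, 0, 1], ![0, 1, 0, 0, 1, 0, 1, 0, 1, 0, 0, 0, 0], ![1, 0, 0, 1, 0, 0, 0, 1, 1, 0, 0, 0, 0], ![0, 1, 0, 1, 0, 1, 1, 0, 1, 0, 0, 0, 0]])
    (by decide))

theorem bad9 (hF : NoF M) (h : HasMinor (ext R12 ![1, 0, 0, 1, 0, 0]) M) : False :=
  hF.1 (h.of_finCert compl_F7 (φ := ![0, 11, 4, 3, 12, 7, 5]) (C := {1, 6, 10})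
    (a := ![![1, 0, 0, 0, 0, 0], ![0, 0, 1, 0, 0, 1], ![0, 0, 0, 1, 0, 1]])
    (z := ![![1, 0, 0, 1, 0, 0, 0, 0, 0, 0, 1, 1, 0], ![1, 1, 0, 0, 1, 0, 0, 0, 0, 0, 0, 0, 1], ![0, 1, 0, 0, 1, 0, 1, 1, 0, 0, 1, 1, 0], ![1, 0, 0, 0, 1, 1, 0, 0, 0, 0, 1, 1, 0]])
    (by decide))

theorem bad11 (hF : NoF M) (h : HasMinor (ext R12 ![1, 1, 0, 1, 0, 0]) M) : False :=
  hF.1 (h.of_finCert compl_F7 (φ := ![0, 11, 4, 3, 12, 7, 5]) (C := {1, 6, 10})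
    (a := ![![1, 0, 0, 0, 0, 0], ![0, 0, 1, 0, 0, 1], ![0, 0, 0, 1, 0, 1]])
    (z := ![![1, 0, 0, 1, 0, 0, 0, 0, 0, 0, 1, 1, 0], ![1, 0, 0, 0, 1, 0, 0, 0, 0, 0, 0, 0, 1], ![0, 1, 0, 0, 1, 0, 1, 1, 0, 0, 1, 1, 0], ![1, 0, 0, 0, 1, 1, 0, 0, 0, 0, 1, 1, 0]])
    (by decide))

theorem bad13 (hF : NoF M) (h : HasMinor (ext R12 ![1, 0, 1, 1, 0, 0]) M) : False :=
  hF.1 (h.of_finCert compl_F7 (φ := ![0, 11, 8, 3, 4, 5, 12]) (C := {2, 6, 10})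
    (a := ![![1, 1, 0, 0, 0, 0], ![0, 0, 1, 0, 0, 1], ![0, 0, 0, 1, 0, 1]])
    (z := ![![1, 0, 0, 1, 0, 0, 0, 0, 0, 0, 1, 1, 0], ![1, 0, 1, 0, 1, 0, 1, 0, 1, 0, 0, 0, 0], ![0, 0, 1, 0, 0, 1, 1, 0, 1, 0, 1, 1, 0], ![1, 0, 0, 0, 0, 0, 1, 0, 1, 0, 1, 1, 1]])
    (by decide))

theorem bad14 (hF : NoF M) (h : HasMinor (ext R12 ![0, 1, 1, 1, 0, 0]) M) : False :=
  hF.1 (h.of_finCert compl_F7 (φ := ![0, 11, 8, 3, 4, 5, 12]) (C := {2, 6, 10})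
    (a := ![![1, 1, 0, 0, 0, 0], ![0, 0, 1, 0, 0, 1], ![0, 0, 0, 1, 0, 1]])
    (z := ![![1, 0, 0, 1, 0, 0, 0, 0, 0, 0, 1, 1, 0], ![1, 0, 1, 0, 1, 0, 1, 0, 1, 0, 0, 0, 0], ![0, 0, 1, 0, 0, 1, 1, 0, 1, 0, 1, 1, 0], ![1, 0, 1, 0, 0, 0, 1, 0, 1, 0, 1, 1, 1]])
    (by decide))

theorem bad17 (hF : NoF M) (h : HasMinor (ext R12 ![1, 0, 0, 0, 1, 0]) M) : False :=
  hF.1 (h.of_finCert compl_F7 (φ := ![0, 4, 6, 10, 12, 8, 7]) (C := {1, 3, 9})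
    (a := ![![1, 0, 1, 0, 0, 0], ![0, 0, 0, 1, 0, 0], ![0, 0, 0, 0, 1, 0]])
    (z := ![![1, 1, 0, 1, 1, 0, 0, 0, 0, 1, 1, 0, 0], ![1, 0, 0, 0, 0, 0, 1, 0, 0, 0, 0, 0, 1], ![0, 1, 0, 0, 1, 0, 1, 0, 1, 0, 0, 0, 0], ![1, 1, 0, 1, 1, 0, 1, 1, 0, 0, 0, 0, 0]])
    (by decide))

theorem bad18 (hF : NoF M) (h : HasMinor (ext R12 ![0, 1, 0, 0, 1, 0]) M) : False :=
  hF.1 (h.of_finCert compl_F7 (φ := ![0, 11, 6, 4, 12, 8, 7]) (C := {2, 3, 9})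
    (a := ![![1, 1, 1, 0, 0, 0], ![0, 0, 0, 1, 0, 0], ![0, 0, 0, 0, 1, 0]])
    (z := ![![1, 0, 1, 0, 1, 0, 0, 0, 0, 1, 0, 1, 0], ![1, 0, 1, 0, 0, 0, 1, 0, 0, 0, 0, 0, 1], ![0, 0, 0, 0, 0, 0, 1, 0, 1, 1, 0, 1, 0], ![1, 0, 0, 1, 0, 0, 1, 1, 0, 1, 0, 1, 0]])
    (by decide))

theorem bad19 (hF : NoF M) (h : HasMinor (ext R12 ![1, 1, 0, 0, 1, 0]) M) : False :=
  hF.1 (h.of_finCert compl_F7 (φ := ![0, 4, 6, 10, 12, 8, 7]) (C := {1, 3, 9})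
    (a := ![![1, 0, 1, 0, 0, 0], ![0, 0, 0, 1, 0, 0], ![0, 0, 0, 0, 1, 0]])
    (z := ![![1, 1, 0, 1, 1, 0, 0, 0, 0, 1, 1, 0, 0], ![1, 1, 0, 0, 0, 0, 1, 0, 0, 0, 0, 0, 1], ![0, 1, 0, 0, 1, 0, 1, 0, 1, 0, 0, 0, 0], ![1, 1, 0, 1, 1, 0, 1, 1, 0, 0, 0, 0, 0]])
    (by decide))

theorem bad20 (hF : NoF M) (h : HasMinor (ext R12 ![0, 0, 1, 0, 1, 0]) M) : False :=
  hF.1 (h.of_finCert compl_F7 (φ := ![3, 4, 6, 5, 12, 8, 7]) (C := {0, 1, 9})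
    (a := ![![0, 0, 1, 0, 0, 0], ![0, 0, 0, 1, 0, 0], ![0, 0, 0, 0, 1, 0]])
    (z := ![![0, 0, 0, 1, 1, 1, 0, 0, 0, 0, 0, 0, 0], ![1, 0, 0, 1, 0, 0, 1, 0, 0, 0, 0, 0, 1], ![0, 1, 0, 0, 1, 0, 1, 0, 1, 0, 0, 0, 0], ![1, 1, 0, 1, 1, 0, 1, 1, 0, 0, 0, 0, 0]])
    (by decide))

theorem bad21 (hF : NoF M) (h : HasMinor (ext R12 ![1, 0, 1, 0, 1, 0]) M) : False :=
  hF.1 (h.of_finCert compl_F7 (φ := ![3, 4, 6, 5, 12, 8, 7]) (C := {0, 1, 9})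
    (a := ![![0, 0, 1, 0, 0, 0], ![0, 0, 0, 1, 0, 0], ![0, 0, 0, 0, 1, 0]])
    (z := ![![0, 0, 0, 1, 1, 1, 0, 0, 0, 0, 0, 0, 0], ![0, 0, 0, 1, 0, 0, 1, 0, 0, 0, 0, 0, 1], ![0, 1, 0, 0, 1, 0, 1, 0, 1, 0, 0, 0, 0], ![1, 1, 0, 1, 1, 0, 1, 1, 0, 0, 0, 0, 0]])
    (by decide))

theorem bad22 (hF : NoF M) (h : HasMinor (ext R12 ![0, 1, 1, 0, 1, 0]) M) : False :=
  hF.1 (h.of_finCert compl_F7 (φ := ![3, 4, 6, 5, 12, 8, 7]) (C := {0, 1, 9})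
    (a := ![![0, 0, 1, 0, 0, 0], ![0, 0, 0, 1, 0, 0], ![0, 0, 0, 0, 1, 0]])
    (z := ![![0, 0, 0, 1, 1, 1, 0, 0, 0, 0, 0, 0, 0], ![1, 1, 0, 1, 0, 0, 1, 0, 0, 0, 0, 0, 1], ![0, 1, 0, 0, 1, 0, 1, 0, 1, 0, 0, 0, 0], ![1, 1, 0, 1, 1, 0, 1, 1, 0, 0, 0, 0, 0]])
    (by decide))

theorem bad23 (hF : NoF M) (h : HasMinor (ext R12 ![1, 1, 1, 0, 1, 0]) M) : False :=
  hF.1 (h.of_finCert compl_F7 (φ := ![3, 4, 6, 5, 12, 8, 7]) (C := {0, 1, 9})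
    (a := ![![0, 0, 1, 0, 0, 0], ![0, 0, 0, 1, 0, 0], ![0, 0, 0, 0, 1, 0]])
    (z := ![![0, 0, 0, 1, 1, 1, 0, 0, 0, 0, 0, 0, 0], ![0, 1, 0, 1, 0, 0, 1, 0, 0, 0, 0, 0, 1], ![0, 1, 0, 0, 1, 0, 1, 0, 1, 0, 0, 0, 0], ![1, 1, 0, 1, 1, 0, 1, 1, 0, 0, 0, 0, 0]])
    (by decide))

theorem bad25 (hF : NoF M) (h : HasMinor (ext R12 ![1, 0, 0, 1, 1, 0]) M) : False :=
  hF.1 (h.of_finCert compl_F7 (φ := ![0, 11, 6, 3, 7, 12, 8]) (C := {1, 5, 10})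
    (a := ![![1, 0, 0, 1, 0, 1], ![0, 0, 1, 1, 0, 0], ![0, 0, 0, 0, 1, 0]])
    (z := ![![1, 0, 0, 1, 0, 0, 0, 0, 0, 0, 1, 1, 0], ![1, 1, 0, 0, 0, 1, 1, 1, 0, 0, 0, 0, 0], ![0, 1, 0, 0, 0, 1, 1, 0, 0, 0, 1, 1, 1], ![1, 1, 0, 0, 0, 1, 1, 0, 1, 0, 1, 1, 0]])
    (by decide))

theorem bad26 (hF : NoF M) (h : HasMinor (ext R12 ![0, 1, 0, 1, 1, 0]) M) : False :=
  hF.1 (h.of_finCert compl_F7 (φ := ![1, 3, 6, 11, 7, 12, 8]) (C := {0, 5, 9})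
    (a := ![![0, 1, 0, 1, 0, 0], ![0, 0, 1, 1, 0, 0], ![0, 0, 0, 0, 1, 0]])
    (z := ![![0, 1, 0, 1, 0, 1, 0, 0, 0, 1, 0, 1, 0], ![1, 1, 0, 0, 0, 1, 1, 1, 0, 0, 0, 0, 0], ![0, 0, 0, 1, 0, 1, 1, 0, 0, 0, 0, 0, 1], ![0, 1, 0, 1, 0, 1, 1, 0, 1, 0, 0, 0, 0]])
    (by decide))

theorem bad27 (hF : NoF M) (h : HasMinor (ext R12 ![1, 1, 0, 1, 1, 0]) M) : False :=
  hF.1 (h.of_finCert compl_F7 (φ := ![1, 3, 6, 11, 7, 12, 8]) (C := {0, 5, 9})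
    (a := ![![0, 1, 0, 1, 0, 0], ![0, 0, 1, 1, 0, 0], ![0, 0, 0, 0, 1, 0]])
    (z := ![![0, 1, 0, 1, 0, 1, 0, 0, 0, 1, 0, 1, 0], ![1, 1, 0, 0, 0, 1, 1, 1, 0, 0, 0, 0, 0], ![1, 0, 0, 1, 0, 1, 1, 0, 0, 0, 0, 0, 1], ![0, 1, 0, 1, 0, 1, 1, 0, 1, 0, 0, 0, 0]])
    (by decide))

theorem bad29 (hF : NoF M) (h : HasMinor (ext R12 ![1, 0, 1, 1, 1, 0]) M) : False :=
  hF.1 (h.of_finCert compl_F7 (φ := ![0, 11, 6, 3, 8, 12, 7]) (C := {2, 4, 10})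
    (a := ![![1, 1, 0, 1, 0, 1], ![0, 0, 1, 0, 0, 1], ![0, 0, 0, 0, 1, 0]])
    (z := ![![1, 0, 0, 1, 0, 0, 0, 0, 0, 0, 1, 1, 0], ![1, 0, 1, 0, 1, 0, 1, 0, 1, 0, 0, 0, 0], ![0, 0, 1, 0, 1, 0, 1, 0, 0, 0, 1, 1, 1], ![1, 0, 1, 0, 1, 0, 1, 1, 0, 0, 1, 1, 0]])
    (by decide))

theorem bad30 (hF : NoF M) (h : HasMinor (ext R12 ![0, 1, 1, 1, 1, 0]) M) : False :=
  hF.1 (h.of_finCert compl_F7 (φ := ![1, 3, 6, 10, 8, 12, 7]) (C := {0, 4, 9})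
    (a := ![![0, 1, 0, 1, 0, 0], ![0, 0, 1, 0, 0, 0], ![0, 0, 0, 0, 1, 0]])
    (z := ![![1, 1, 0, 1, 1, 0, 0, 0, 0, 1, 1, 0, 0], ![0, 1, 0, 0, 1, 0, 1, 0, 1, 0, 0, 0, 0], ![1, 0, 0, 1, 1, 0, 1, 0, 0, 0, 0, 0, 1], ![1, 1, 0, 1, 1, 0, 1, 1, 0, 0, 0, 0, 0]])
    (by decide))

theorem bad31 (hF : NoF M) (h : HasMinor (ext R12 ![1, 1, 1, 1, 1, 0]) M) : False :=
  hF.1 (h.of_finCert compl_F7 (φ := ![1, 3, 6, 10, 8, 12, 7]) (C := {0, 4, 9})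
    (a := ![![0, 1, 0, 1, 0, 0], ![0, 0, 1, 0, 0, 0], ![0, 0, 0, 0, 1, 0]])
    (z := ![![1, 1, 0, 1, 1, 0, 0, 0, 0, 1, 1, 0, 0], ![0, 1, 0, 0, 1, 0, 1, 0, 1, 0, 0, 0, 0], ![0, 0, 0, 1, 1, 0, 1, 0, 0, 0, 0, 0, 1], ![1, 1, 0, 1, 1, 0, 1, 1, 0, 0, 0, 0, 0]])
    (by decide))

theorem bad33 (hF : NoF M) (h : HasMinor (ext R12 ![1, 0, 0, 0, 0, 1]) M) : False :=
  hF.1 (h.of_finCert compl_F7 (φ := ![0, 4, 9, 7, 12, 11, 10]) (C := {1, 3, 6})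
    (a := ![![1, 0, 1, 0, 0, 0], ![0, 0, 0, 1, 0, 0], ![0, 0, 0, 0, 0, 1]])
    (z := ![![1, 1, 0, 1, 1, 0, 1, 1, 0, 0, 0, 0, 0], ![1, 0, 0, 0, 0, 0, 0, 0, 0, 1, 0, 0, 1], ![0, 1, 0, 0, 1, 0, 0, 0, 0, 1, 0, 1, 0], ![1, 1, 0, 1, 1, 0, 0, 0, 0, 1, 1, 0, 0]])
    (by decide))

theorem bad34 (hF : NoF M) (h : HasMinor (ext R12 ![0, 1, 0, 0, 0, 1]) M) : False :=
  hF.1 (h.of_finCert compl_F7 (φ := ![0, 8, 9, 4, 12, 11, 10]) (C := {2, 3, 6})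
    (a := ![![1, 1, 1, 0, 0, 0], ![0, 0, 0, 1, 0, 0], ![0, 0, 0, 0, 0, 1]])
    (z := ![![1, 0, 1, 0, 1, 0, 1, 0, 1, 0, 0, 0, 0], ![1, 0, 1, 0, 0, 0, 0, 0, 0, 1, 0, 0, 1], ![0, 0, 0, 0, 0, 0, 1, 0, 1, 1, 0, 1, 0], ![1, 0, 0, 1, 0, 0, 1, 0, 1, 1, 1, 0, 0]])
    (by decide))

theorem bad35 (hF : NoF M) (h : HasMinor (ext R12 ![1, 1, 0, 0, 0, 1]) M) : False :=
  hF.1 (h.of_finCert compl_F7 (φ := ![0, 4, 9, 7, 12, 11, 10]) (C := {1, 3, 6})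
    (a := ![![1, 0, 1, 0, 0, 0], ![0, 0, 0, 1, 0, 0], ![0, 0, 0, 0, 0, 1]])
    (z := ![![1, 1, 0, 1, 1, 0, 1, 1, 0, 0, 0, 0, 0], ![1, 1, 0, 0, 0, 0, 0, 0, 0, 1, 0, 0, 1], ![0, 1, 0, 0, 1, 0, 0, 0, 0, 1, 0, 1, 0], ![1, 1, 0, 1, 1, 0, 0, 0, 0, 1, 1, 0, 0]])
    (by decide))

theorem bad36 (hF : NoF M) (h : HasMinor (ext R12 ![0, 0, 1, 0, 0, 1]) M) : False :=
  hF.1 (h.of_finCert compl_F7 (φ := ![3, 4, 9, 5, 12, 11, 10]) (C := {0, 1, 6})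
    (a := ![![0, 0, 1, 0, 0, 0], ![0, 0, 0, 1, 0, 0], ![0, 0, 0, 0, 0, 1]])
    (z := ![![0, 0, 0, 1, 1, 1, 0, 0, 0, 0, 0, 0, 0], ![1, 0, 0, 1, 0, 0, 0, 0, 0, 1, 0, 0, 1], ![0, 1, 0, 0, 1, 0, 0, 0, 0, 1, 0, 1, 0], ![1, 1, 0, 1, 1, 0, 0, 0, 0, 1, 1, 0, 0]])
    (by decide))

theorem bad37 (hF : NoF M) (h : HasMinor (ext R12 ![1, 0, 1, 0, 0, 1]) M) : False :=
  hF.1 (h.of_finCert compl_F7 (φ := ![3, 4, 9, 5, 12, 11, 10]) (C := {0, 1, 6})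
    (a := ![![0, 0, 1, 0, 0, 0], ![0, 0, 0, 1, 0, 0], ![0, 0, 0, 0, 0, 1]])
    (z := ![![0, 0, 0, 1, 1, 1, 0, 0, 0, 0, 0, 0, 0], ![0, 0, 0, 1, 0, 0, 0, 0, 0, 1, 0, 0, 1], ![0, 1, 0, 0, 1, 0, 0, 0, 0, 1, 0, 1, 0], ![1, 1, 0, 1, 1, 0, 0, 0, 0, 1, 1, 0, 0]])
    (by decide))

theorem bad38 (hF : NoF M) (h : HasMinor (ext R12 ![0, 1, 1, 0, 0, 1]) M) : False :=
  hF.1 (h.of_finCert compl_F7 (φ := ![3, 4, 9, 5, 12, 11, 10]) (C := {0, 1, 6})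
    (a := ![![0, 0, 1, 0, 0, 0], ![0, 0, 0, 1, 0, 0], ![0, 0, 0, 0, 0, 1]])
    (z := ![![0, 0, 0, 1, 1, 1, 0, 0, 0, 0, 0, 0, 0], ![1, 1, 0, 1, 0, 0, 0, 0, 0, 1, 0, 0, 1], ![0, 1, 0, 0, 1, 0, 0, 0, 0, 1, 0, 1, 0], ![1, 1, 0, 1, 1, 0, 0, 0, 0, 1, 1, 0, 0]])
    (by decide))

theorem bad39 (hF : NoF M) (h : HasMinor (ext R12 ![1, 1, 1, 0, 0, 1]) M) : False :=
  hF.1 (h.of_finCert compl_F7 (φ := ![3, 4, 9, 5, 12, 11, 10]) (C := {0, 1, 6})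
    (a := ![![0, 0, 1, 0, 0, 0], ![0, 0, 0, 1, 0, 0], ![0, 0, 0, 0, 0, 1]])
    (z := ![![0, 0, 0, 1, 1, 1, 0, 0, 0, 0, 0, 0, 0], ![0, 1, 0, 1, 0, 0, 0, 0, 0, 1, 0, 0, 1], ![0, 1, 0, 0, 1, 0, 0, 0, 0, 1, 0, 1, 0], ![1, 1, 0, 1, 1, 0, 0, 0, 0, 1, 1, 0, 0]])
    (by decide))

theorem bad41 (hF : NoF M) (h : HasMinor (ext R12 ![1, 0, 0, 1, 0, 1]) M) : False :=
  hF.1 (h.of_finCert compl_F7 (φ := ![0, 8, 9, 3, 10, 12, 11]) (C := {1, 5, 7})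
    (a := ![![1, 0, 0, 1, 1, 0], ![0, 0, 1, 1, 0, 0], ![0, 0, 0, 0, 0, 1]])
    (z := ![![1, 0, 0, 1, 0, 0, 0, 1, 1, 0, 0, 0, 0], ![1, 1, 0, 0, 0, 1, 0, 0, 0, 1, 1, 0, 0], ![0, 1, 0, 0, 0, 1, 0, 1, 1, 1, 0, 0, 1], ![1, 1, 0, 0, 0, 1, 0, 1, 1, 1, 0, 1, 0]])
    (by decide))

theorem bad42 (hF : NoF M) (h : HasMinor (ext R12 ![0, 1, 0, 1, 0, 1]) M) : False :=
  hF.1 (h.of_finCert compl_F7 (φ := ![1, 3, 9, 8, 10, 12, 11]) (C := {0, 5, 6})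
    (a := ![![0, 1, 0, 1, 0, 0], ![0, 0, 1, 1, 0, 0], ![0, 0, 0, 0, 0, 1]])
    (z := ![![0, 1, 0, 1, 0, 1, 1, 0, 1, 0, 0, 0, 0], ![1, 1, 0, 0, 0, 1, 0, 0, 0, 1, 1, 0, 0], ![0, 0, 0, 1, 0, 1, 0, 0, 0, 1, 0, 0, 1], ![0, 1, 0, 1, 0, 1, 0, 0, 0, 1, 0, 1, 0]])
    (by decide))

theorem bad43 (hF : NoF M) (h : HasMinor (ext R12 ![1, 1, 0, 1, 0, 1]) M) : False :=
  hF.1 (h.of_finCert compl_F7 (φ := ![1, 3, 9, 8, 10, 12, 11]) (C := {0, 5, 6})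
    (a := ![![0, 1, 0, 1, 0, 0], ![0, 0, 1, 1, 0, 0], ![0, 0, 0, 0, 0, 1]])
    (z := ![![0, 1, 0, 1, 0, 1, 1, 0, 1, 0, 0, 0, 0], ![1, 1, 0, 0, 0, 1, 0, 0, 0, 1, 1, 0, 0], ![1, 0, 0, 1, 0, 1, 0, 0, 0, 1, 0, 0, 1], ![0, 1, 0, 1, 0, 1, 0, 0, 0, 1, 0, 1, 0]])
    (by decide))

theorem bad45 (hF : NoF M) (h : HasMinor (ext R12 ![1, 0, 1, 1, 0, 1]) M) : False :=
  hF.1 (h.of_finCert compl_F7 (φ := ![0, 8, 9, 3, 11, 12, 10]) (C := {2, 4, 7})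
    (a := ![![1, 1, 0, 1, 1, 0], ![0, 0, 1, 0, 1, 0], ![0, 0, 0, 0, 0, 1]])
    (z := ![![1, 0, 0, 1, 0, 0, 0, 1, 1, 0, 0, 0, 0], ![1, 0, 1, 0, 1, 0, 0, 0, 0, 1, 0, 1, 0], ![0, 0, 1, 0, 1, 0, 0, 1, 1, 1, 0, 0, 1], ![1, 0, 1, 0, 1, 0, 0, 1, 1, 1, 1, 0, 0]])
    (by decide))

theorem bad46 (hF : NoF M) (h : HasMinor (ext R12 ![0, 1, 1, 1, 0, 1]) M) : False :=
  hF.1 (h.of_finCert compl_F7 (φ := ![1, 3, 9, 7, 11, 12, 10]) (C := {0, 4, 6})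
    (a := ![![0, 1, 0, 1, 0, 0], ![0, 0, 1, 0, 0, 0], ![0, 0, 0, 0, 0, 1]])
    (z := ![![1, 1, 0, 1, 1, 0, 1, 1, 0, 0, 0, 0, 0], ![0, 1, 0, 0, 1, 0, 0, 0, 0, 1, 0, 1, 0], ![1, 0, 0, 1, 1, 0, 0, 0, 0, 1, 0, 0, 1], ![1, 1, 0, 1, 1, 0, 0, 0, 0, 1, 1, 0, 0]])
    (by decide))

theorem bad47 (hF : NoF M) (h : HasMinor (ext R12 ![1, 1, 1, 1, 0, 1]) M) : False :=
  hF.1 (h.of_finCert compl_F7 (φ := ![1, 3, 9, 7, 11, 12, 10]) (C := {0, 4, 6})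
    (a := ![![0, 1, 0, 1, 0, 0], ![0, 0, 1, 0, 0, 0], ![0, 0, 0, 0, 0, 1]])
    (z := ![![1, 1, 0, 1, 1, 0, 1, 1, 0, 0, 0, 0, 0], ![0, 1, 0, 0, 1, 0, 0, 0, 0, 1, 0, 1, 0], ![0, 0, 0, 1, 1, 0, 0, 0, 0, 1, 0, 0, 1], ![1, 1, 0, 1, 1, 0, 0, 0, 0, 1, 1, 0, 0]])
    (by decide))

theorem bad49 (hF : NoF M) (h : HasMinor (ext R12 ![1, 0, 0, 0, 1, 1]) M) : False :=
  hF.1 (h.of_finCert compl_F7 (φ := ![0, 4, 9, 7, 12, 11, 10]) (C := {1, 3, 6})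
    (a := ![![1, 0, 1, 0, 0, 0], ![0, 0, 0, 1, 0, 0], ![0, 0, 0, 0, 0, 1]])
    (z := ![![1, 1, 0, 1, 1, 0, 1, 1, 0, 0, 0, 0, 0], ![1, 0, 0, 0, 0, 0, 1, 0, 0, 1, 0, 0, 1], ![0, 1, 0, 0, 1, 0, 0, 0, 0, 1, 0, 1, 0], ![1, 1, 0, 1, 1, 0, 0, 0, 0, 1, 1, 0, 0]])
    (by decide))

theorem bad50 (hF : NoF M) (h : HasMinor (ext R12 ![0, 1, 0, 0, 1, 1]) M) : False :=
  hF.1 (h.of_finCert compl_F7 (φ := ![1, 3, 9, 6, 11, 12, 10]) (C := {0, 4, 7})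
    (a := ![![0, 1, 0, 1, 1, 0], ![0, 0, 1, 0, 1, 0], ![0, 0, 0, 0, 0, 1]])
    (z := ![![1, 1, 0, 1, 1, 0, 1, 1, 0, 0, 0, 0, 0], ![0, 1, 0, 0, 1, 0, 0, 0, 0, 1, 0, 1, 0], ![1, 0, 0, 1, 1, 0, 0, 1, 0, 1, 0, 0, 1], ![1, 1, 0, 1, 1, 0, 0, 0, 0, 1, 1, 0, 0]])
    (by decide))

theorem bad51 (hF : NoF M) (h : HasMinor (ext R12 ![1, 1, 0, 0, 1, 1]) M) : False :=
  hF.1 (h.of_finCert compl_F7 (φ := ![1, 3, 9, 6, 11, 12, 10]) (C := {0, 4, 7})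
    (a := ![![0, 1, 0, 1, 1, 0], ![0, 0, 1, 0, 1, 0], ![0, 0, 0, 0, 0, 1]])
    (z := ![![1, 1, 0, 1, 1, 0, 1, 1, 0, 0, 0, 0, 0], ![0, 1, 0, 0, 1, 0, 0, 0, 0, 1, 0, 1, 0], ![0, 0, 0, 1, 1, 0, 0, 1, 0, 1, 0, 0, 1], ![1, 1, 0, 1, 1, 0, 0, 0, 0, 1, 1, 0, 0]])
    (by decide))

theorem bad52 (hF : NoF M) (h : HasMinor (ext R12 ![0, 0, 1, 0, 1, 1]) M) : False :=
  hF.1 (h.of_finCert compl_F7 (φ := ![3, 4, 9, 5, 12, 11, 10]) (C := {0, 1, 6})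
    (a := ![![0, 0, 1, 0, 0, 0], ![0, 0, 0, 1, 0, 0], ![0, 0, 0, 0, 0, 1]])
    (z := ![![0, 0, 0, 1, 1, 1, 0, 0, 0, 0, 0, 0, 0], ![1, 0, 0, 1, 0, 0, 1, 0, 0, 1, 0, 0, 1], ![0, 1, 0, 0, 1, 0, 0, 0, 0, 1, 0, 1, 0], ![1, 1, 0, 1, 1, 0, 0, 0, 0, 1, 1, 0, 0]])
    (by decide))

theorem bad53 (hF : NoF M) (h : HasMinor (ext R12 ![1, 0, 1, 0, 1, 1]) M) : False :=
  hF.1 (h.of_finCert compl_F7 (φ := ![3, 4, 9, 5, 12, 11, 10]) (C := {0, 1, 6})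
    (a := ![![0, 0, 1, 0, 0, 0], ![0, 0, 0, 1, 0, 0], ![0, 0, 0, 0, 0, 1]])
    (z := ![![0, 0, 0, 1, 1, 1, 0, 0, 0, 0, 0, 0, 0], ![0, 0, 0, 1, 0, 0, 1, 0, 0, 1, 0, 0, 1], ![0, 1, 0, 0, 1, 0, 0, 0, 0, 1, 0, 1, 0], ![1, 1, 0, 1, 1, 0, 0, 0, 0, 1, 1, 0, 0]])
    (by decide))

theorem bad54 (hF : NoF M) (h : HasMinor (ext R12 ![0, 1, 1, 0, 1, 1]) M) : False :=
  hF.1 (h.of_finCert compl_F7 (φ := ![3, 4, 9, 5, 12, 11, 10]) (C := {0, 1, 6})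
    (a := ![![0, 0, 1, 0, 0, 0], ![0, 0, 0, 1, 0, 0], ![0, 0, 0, 0, 0, 1]])
    (z := ![![0, 0, 0, 1, 1, 1, 0, 0, 0, 0, 0, 0, 0], ![1, 1, 0, 1, 0, 0, 1, 0, 0, 1, 0, 0, 1], ![0, 1, 0, 0, 1, 0, 0, 0, 0, 1, 0, 1, 0], ![1, 1, 0, 1, 1, 0, 0, 0, 0, 1, 1, 0, 0]])
    (by decide))

theorem bad55 (hF : NoF M) (h : HasMinor (ext R12 ![1, 1, 1, 0, 1, 1]) M) : False :=
  hF.1 (h.of_finCert compl_F7 (φ := ![3, 4, 9, 5, 12, 11, 10]) (C := {0, 1, 6})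
    (a := ![![0, 0, 1, 0, 0, 0], ![0, 0, 0, 1, 0, 0], ![0, 0, 0, 0, 0, 1]])
    (z := ![![0, 0, 0, 1, 1, 1, 0, 0, 0, 0, 0, 0, 0], ![0, 1, 0, 1, 0, 0, 1, 0, 0, 1, 0, 0, 1], ![0, 1, 0, 0, 1, 0, 0, 0, 0, 1, 0, 1, 0], ![1, 1, 0, 1, 1, 0, 0, 0, 0, 1, 1, 0, 0]])
    (by decide))

theorem bad56 (hF : NoF M) (h : HasMinor (ext R12 ![0, 0, 0, 1, 1, 1]) M) : False :=
  hF.1 (h.of_finCert compl_F7 (φ := ![3, 4, 9, 5, 12, 11, 10]) (C := {0, 1, 7})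
    (a := ![![0, 0, 1, 0, 1, 0], ![0, 0, 0, 1, 1, 0], ![0, 0, 0, 0, 0, 1]])
    (z := ![![0, 0, 0, 1, 1, 1, 0, 0, 0, 0, 0, 0, 0], ![1, 0, 0, 1, 0, 0, 0, 1, 0, 1, 0, 0, 1], ![0, 1, 0, 0, 1, 0, 0, 0, 0, 1, 0, 1, 0], ![1, 1, 0, 1, 1, 0, 0, 0, 0, 1, 1, 0, 0]])
    (by decide))

theorem bad57 (hF : NoF M) (h : HasMinor (ext R12 ![1, 0, 0, 1, 1, 1]) M) : False :=
  hF.1 (h.of_finCert compl_F7 (φ := ![3, 4, 9, 5, 12, 11, 10]) (C := {0, 1, 7})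
    (a := ![![0, 0, 1, 0, 1, 0], ![0, 0, 0, 1, 1, 0], ![0, 0, 0, 0, 0, 1]])
    (z := ![![0, 0, 0, 1, 1, 1, 0, 0, 0, 0, 0, 0, 0], ![0, 0, 0, 1, 0, 0, 0, 1, 0, 1, 0, 0, 1], ![0, 1, 0, 0, 1, 0, 0, 0, 0, 1, 0, 1, 0], ![1, 1, 0, 1, 1, 0, 0, 0, 0, 1, 1, 0, 0]])
    (by decide))

theorem bad58 (hF : NoF M) (h : HasMinor (ext R12 ![0, 1, 0, 1, 1, 1]) M) : False :=
  hF.1 (h.of_finCert compl_F7 (φ := ![3, 4, 9, 5, 12, 11, 10]) (C := {0, 1, 7})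
    (a := ![![0, 0, 1, 0, 1, 0], ![0, 0, 0, 1, 1, 0], ![0, 0, 0, 0, 0, 1]])
    (z := ![![0, 0, 0, 1, 1, 1, 0, 0, 0, 0, 0, 0, 0], ![1, 1, 0, 1, 0, 0, 0, 1, 0, 1, 0, 0, 1], ![0, 1, 0, 0, 1, 0, 0, 0, 0, 1, 0, 1, 0], ![1, 1, 0, 1, 1, 0, 0, 0, 0, 1, 1, 0, 0]])
    (by decide))

theorem bad59 (hF : NoF M) (h : HasMinor (ext R12 ![1, 1, 0, 1, 1, 1]) M) : False :=
  hF.1 (h.of_finCert compl_F7 (φ := ![3, 4, 9, 5, 12, 11, 10]) (C := {0, 1, 7})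
    (a := ![![0, 0, 1, 0, 1, 0], ![0, 0, 0, 1, 1, 0], ![0, 0, 0, 0, 0, 1]])
    (z := ![![0, 0, 0, 1, 1, 1, 0, 0, 0, 0, 0, 0, 0], ![0, 1, 0, 1, 0, 0, 0, 1, 0, 1, 0, 0, 1], ![0, 1, 0, 0, 1, 0, 0, 0, 0, 1, 0, 1, 0], ![1, 1, 0, 1, 1, 0, 0, 0, 0, 1, 1, 0, 0]])
    (by decide))

theorem bad60 (hF : NoF M) (h : HasMinor (ext R12 ![0, 0, 1, 1, 1, 1]) M) : False :=
  hF.1 (h.of_finCert compl_F7 (φ := ![3, 4, 9, 5, 12, 11, 10]) (C := {0, 1, 8})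
    (a := ![![0, 0, 1, 0, 0, 0], ![0, 0, 0, 1, 1, 0], ![0, 0, 0, 0, 0, 1]])
    (z := ![![0, 0, 0, 1, 1, 1, 0, 0, 0, 0, 0, 0, 0], ![1, 0, 0, 1, 0, 0, 0, 0, 1, 1, 0, 0, 1], ![0, 1, 0, 0, 1, 0, 0, 0, 0, 1, 0, 1, 0], ![1, 1, 0, 1, 1, 0, 0, 0, 0, 1, 1, 0, 0]])
    (by decide))

theorem bad61 (hF : NoF M) (h : HasMinor (ext R12 ![1, 0, 1, 1, 1, 1]) M) : False :=
  hF.1 (h.of_finCert compl_F7 (φ := ![3, 4, 9, 5, 12, 11, 10]) (C := {0, 1, 8})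
    (a := ![![0, 0, 1, 0, 0, 0], ![0, 0, 0, 1, 1, 0], ![0, 0, 0, 0, 0, 1]])
    (z := ![![0, 0, 0, 1, 1, 1, 0, 0, 0, 0, 0, 0, 0], ![0, 0, 0, 1, 0, 0, 0, 0, 1, 1, 0, 0, 1], ![0, 1, 0, 0, 1, 0, 0, 0, 0, 1, 0, 1, 0], ![1, 1, 0, 1, 1, 0, 0, 0, 0, 1, 1, 0, 0]])
    (by decide))

theorem bad62 (hF : NoF M) (h : HasMinor (ext R12 ![0, 1, 1, 1, 1, 1]) M) : False :=
  hF.1 (h.of_finCert compl_F7 (φ := ![3, 4, 9, 5, 12, 11, 10]) (C := {0, 1, 8})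
    (a := ![![0, 0, 1, 0, 0, 0], ![0, 0, 0, 1, 1, 0], ![0, 0, 0, 0, 0, 1]])
    (z := ![![0, 0, 0, 1, 1, 1, 0, 0, 0, 0, 0, 0, 0], ![1, 1, 0, 1, 0, 0, 0, 0, 1, 1, 0, 0, 1], ![0, 1, 0, 0, 1, 0, 0, 0, 0, 1, 0, 1, 0], ![1, 1, 0, 1, 1, 0, 0, 0, 0, 1, 1, 0, 0]])
    (by decide))

theorem bad63 (hF : NoF M) (h : HasMinor (ext R12 ![1, 1, 1, 1, 1, 1]) M) : False :=
  hF.1 (h.of_finCert compl_F7 (φ := ![3, 4, 9, 5, 12, 11, 10]) (C := {0, 1, 8})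
    (a := ![![0, 0, 1, 0, 0, 0], ![0, 0, 0, 1, 1, 0], ![0, 0, 0, 0, 0, 1]])
    (z := ![![0, 0, 0, 1, 1, 1, 0, 0, 0, 0, 0, 0, 0], ![0, 1, 0, 1, 0, 0, 0, 0, 1, 1, 0, 0, 1], ![0, 1, 0, 0, 1, 0, 0, 0, 0, 1, 0, 1, 0], ![1, 1, 0, 1, 1, 0, 0, 0, 0, 1, 1, 0, 0]])
    (by decide))

theorem okcol (hF : NoF M) (v : Fin 6 → ZMod 2) (h : HasMinor (ext R12 v) M) : OKcol v := by
  have hv : v = ![v 0, v 1, v 2, v 3, v 4, v 5] := by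
    ext i; fin_cases i <;> rfl
  rw [hv] at h ⊢
  rcases zcases (v 0) with h0 | h0 <;> rcases zcases (v 1) with h1 | h1 <;>
    rcases zcases (v 2) with h2 | h2 <;> rcases zcases (v 3) with h3 | h3 <;>
    rcases zcases (v 4) with h4 | h4 <;> rcases zcases (v 5) with h5 | h5 <;>
    rw [h0, h1, h2, h3, h4, h5] at h ⊢
  · decide
  · decide
  · decide
  · decide
  · decide
  · decide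
  · decide
  · exact (bad56 hF h).elim
  · decide
  · exact (bad36 hF h).elim
  · exact (bad20 hF h).elim
  · exact (bad52 hF h).elim
  · decide
  · decide
  · decide
  · exact (bad60 hF h).elim
  · decide
  · exact (bad34 hF h).elim
  · exact (bad18 hF h).elim
  · exact (bad50 hF h).elim
  · decide
  · exact (bad42 hF h).elim
  · exact (bad26 hF h).elim
  · exact (bad58 hF h).elim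
  · exact (bad6 hF h).elim
  · exact (bad38 hF h).elim
  · exact (bad22 hF h).elim
  · exact (bad54 hF h).elim
  · exact (bad14 hF h).elim
  · exact (bad46 hF h).elim
  · exact (bad30 hF h).elim
  · exact (bad62 hF h).elim
  · decide
  · exact (bad33 hF h).elim
  · exact (bad17 hF h).elim
  · exact (bad49 hF h).elim
  · exact (bad9 hF h).elim
  · exact (bad41 hF h).elim
  · exact (bad25 hF h).elim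
  · exact (bad57 hF h).elim
  · decide
  · exact (bad37 hF h).elim
  · exact (bad21 hF h).elim
  · exact (bad53 hF h).elim
  · exact (bad13 hF h).elim
  · exact (bad45 hF h).elim
  · exact (bad29 hF h).elim
  · exact (bad61 hF h).elim
  · decide
  · exact (bad35 hF h).elim
  · exact (bad19 hF h).elim
  · exact (bad51 hF h).elim
  · exact (bad11 hF h).elim
  · exact (bad43 hF h).elim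
  · exact (bad27 hF h).elim
  · exact (bad59 hF h).elim
  · exact (bad7 hF h).elim
  · exact (bad39 hF h).elim
  · exact (bad23 hF h).elim
  · exact (bad55 hF h).elim
  · decide
  · exact (bad47 hF h).elim
  · exact (bad31 hF h).elim
  · exact (bad63 hF h).elim

end SEY.Ind
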