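import Pool.Agent.Helper73.SEY.SpDefs

/-!
Induced 3-separation of R12 (block IND, section 5 of /team-store/helper25_SEY.md): definitions.

The columns of `R12` are `a1 a2 a3 b1 b2 b3 y1 y2 y3 z1 z2 z3` (numbers 0, ..., 11).  The first half is
`A` (columns 0, ..., 5), the second half is `B` (columns 6, ..., 11).
-/

namespace SEY.Ind

open Finset BM SEY.Sp

variable {E : Type} [Fintype E] [DecidableEq E]

/-- The pairs `(a1, b1)`, `(a2, b2)`, `(a3, b3)`, `(y1, z1)`. -/
def P1 : Fin 4 → Fin 12 := ![0, 1, 2, 6]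
def P2 : Fin 4 → Fin 12 := ![3, 4, 5, 9]

/-- The pairs `(y1, z1)`, `(y2, z2)`, `(y3, z3)`, `(a1, b1)` (the dual types). -/
def Q1 : Fin 4 → Fin 12 := ![6, 7, 8, 0]
def Q2 : Fin 4 → Fin 12 := ![9, 10, 11, 3]

/-- The conclusion: a separation of order at most 2 between the two halves. -/
def Good (M : BM E) (φ : Fin 12 → E) : Prop :=
  ∃ X ⊆ M.S, (∀ i : Fin 12, i < 6 → φ i ∈ X) ∧ (∀ i : Fin 12, 6 ≤ i → φ i ∉ X) ∧ M.lam X ≤ 2

/-- Induction hypothesis. -/
def IH (E : Type) [Fintype E] [DecidableEq E] (m : ℕ) : Prop :=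
  ∀ M : BM E, NoF M → M.S.card < m → ∀ (φ : Fin 12 → E) (C : Finset E),
    Lab R12 M φ C → Good M φ

/-- The columns of the one-element extensions of `R12` without Fano minors. -/
def OKcol (v : Fin 6 → ZMod 2) : Prop :=
  (∀ i, v i = 0) ∨ (∃ j : Fin 12, ∀ i, v i = R12 i j) ∨
    ∃ t : Fin 4, ∀ i, v i = R12 i (P1 t) + R12 i (P2 t)

instance (v : Fin 6 → ZMod 2) : Decidable (OKcol v) := by unfold OKcol; infer_instance

/-- `R12`, one more column (the element `d`, the sum of the columns `P1 t` and `P2 t`), one more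
row `{a1, b1, d, c}` and one more column (the element `c`, last). -/
def pairRows (t : Fin 4) : Fin 7 → Fin 14 → ZMod 2 :=
  Fin.snoc (α := fun _ => Fin 14 → ZMod 2)
    (fun i => Fin.snoc (α := fun _ => ZMod 2)
      (ext R12 (fun i => R12 i (P1 t) + R12 i (P2 t)) i) 0)
    ![1, 0, 0, 1, 0, 0, 0, 0, 0, 0, 0, 0, 1, 1]

end SEY.Ind
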