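import Pool.Agent.Helper35.SEY.IndExt

/-!
IND-4 (the contracted elements of a minimal counterexample, by duality).  `r12perm` and `compl_R12` are
in `Pool/Agent/Helper71/SEYApi2.lean`: `r12perm` exchanges the two halves (`i ↦ i + 6` modulo 12) and
`Compl R12 (fun i e => R12 i (r12perm e))`.

lab12_dual: `lab_dual compl_R12 h` (Helper73/SEY/SpLab) is
`Lab (fun i e => R12 i (r12perm e)) M.dual φ (rest M φ C)`.  Relabel: the fields for `fun i => φ (r12perm i)`
follow by applying them at `r12perm i` (`r12perm (r12perm e) = e`, by `decide`).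

good_dual (all `φ i` in `M.S`): if `X` is good for `M.dual` and the exchanged labelling then `M.S \ X` is good for `M` and
`φ` (`lam_dual`, `lam_compl`; for `i < 6` `r12perm i ≥ 6` and conversely, by `decide`).

rest_dual: `rest M.dual (φ ∘ r12perm) (rest M φ C) = C`, membership: `mem_rest` (or `rest_rest`; `φ ∘ r12perm`
has the same image), `C ⊆ M.S`, `φ i ∉ C`.

cside: apply `dside` to `M.dual` (`NoF.dual`, `M.dual.S = M.S` so `IH` is the same, `good_dual`), the
labelling `φ ∘ r12perm`, the set `rest M φ C` and `c` (`rest_dual`): there is `t` such that all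
cycles `z ∈ M.Z` which vanish on `rest M φ C` have
`z c = z (φ (r12perm (P1 t))) + z (φ (r12perm (P2 t)))`, and `r12perm (P1 t) = Q1 t`, `r12perm (P2 t) = Q2 t`
(`decide`).  Let `w = ind {c, φ (Q1 t), φ (Q2 t)}` (three distinct elements).  It is zero on
`rest M φ C` and outside `M.S`, and orthogonal to all cycles of `M.del (rest M φ C)` (`mem_Z_del`), so
`w ∈ (M.del (rest M φ C)).R` (`mem_R_iff`), and by `mem_del'` there is `ρ ∈ M.R` which agrees with `w` on
`M.S \ rest M φ C`, in particular on `C` and on the `φ i`.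
-/

namespace SEY.Ind

open Finset BM SEY.Sp

variable {E : Type} [Fintype E] [DecidableEq E] {M : BM E} {φ : Fin 12 → E} {C : Finset E}

private theorem pp (e : Fin 12) : r12perm (r12perm e) = e := by
  revert e; decide

private theorem pl (i : Fin 12) : (i < 6 → 6 ≤ r12perm i) ∧ (6 ≤ i → r12perm i < 6) := by
  revert i; decide

private theorem pq (t : Fin 4) : r12perm (P1 t) = Q1 t ∧ r12perm (P2 t) = Q2 t ∧ Q1 t ≠ Q2 t := by
  revert t; decide

theorem lab12_dual (h : Lab R12 M φ C) :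
    Lab R12 M.dual (fun i => φ (r12perm i)) (rest M φ C) := by
  have h' := lab_dual compl_R12 h
  refine ⟨fun i j hij => r12perm.injective (h'.inj hij), fun i => h'.mem _, h'.sub,
    fun i => h'.out _, ?_, ?_⟩
  · intro i
    obtain ⟨f, hf, hf1, hf2⟩ := h'.r1 i
    exact ⟨f, hf, hf1, fun j => by rw [hf2, pp]⟩
  · intro f hf hf1
    obtain ⟨a, ha⟩ := h'.r2 f hf hf1
    exact ⟨a, fun j => by rw [ha]; simp only [pp]⟩

theorem good_dual (hm : ∀ i, φ i ∈ M.S) (h : Good M.dual (fun i => φ (r12perm i))) :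
    Good M φ := by
  obtain ⟨X, hX, h1, h2, h3⟩ := h
  refine ⟨M.S \ X, Finset.sdiff_subset, fun i hi => ?_, fun i hi => ?_, ?_⟩
  · refine Finset.mem_sdiff.2 ⟨hm i, ?_⟩
    have := h2 (r12perm i) ((pl i).1 hi)
    simpa only [pp] using this
  · intro hc
    have := h1 (r12perm i) ((pl i).2 hi)
    simp only [pp] at this
    exact (Finset.mem_sdiff.1 hc).2 this
  · rw [lam_compl, ← lam_dual]
    exact h3

theorem rest_dual (h : Lab R12 M φ C) :
    rest M.dual (fun i => φ (r12perm i)) (rest M φ C) = C := by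
  ext e
  rw [mem_rest]
  constructor
  · rintro ⟨h1, h2, h3⟩
    by_contra h4
    refine h2 (mem_rest.2 ⟨h1, h4, fun i hi => h3 (r12perm i) ?_⟩)
    simp only [pp]
    exact hi
  · intro he
    refine ⟨h.sub he, fun h2 => (mem_rest.1 h2).2.1 he, fun i hi => ?_⟩
    exact h.out _ (hi ▸ he)

theorem cside (hF : NoF M) (hI : IH E M.S.card) (hG : ¬ Good M φ) (h : Lab R12 M φ C) {c : E}
    (hc : c ∈ C) :
    ∃ t : Fin 4, ∃ ρ ∈ M.R, (∀ x ∈ C.erase c, ρ x = 0) ∧ ρ c = 1 ∧
      ∀ i, ρ (φ i) = if i = Q1 t ∨ i = Q2 t then 1 else 0 := by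
  have hL := lab12_dual h
  have hcr : c ∈ rest M.dual (fun i => φ (r12perm i)) (rest M φ C) := by
    rw [rest_dual h]; exact hc
  obtain ⟨t, ht⟩ := dside (M := M.dual) hF.dual hI (fun hg => hG (good_dual h.mem hg)) hL hcr
  refine ⟨t, ?_⟩
  obtain ⟨q1, q2, q3⟩ := pq t
  rw [q1, q2] at ht
  have hcS : c ∈ M.S := h.sub hc
  have hc1 : ∀ i, φ i ≠ c := fun i hi => h.out i (hi ▸ hc)
  set w : E → ZMod 2 := ind {c, φ (Q1 t), φ (Q2 t)} with hw
  have hwapp : ∀ x, w x = if x = c ∨ x = φ (Q1 t) ∨ x = φ (Q2 t) then 1 else 0 := by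
    intro x
    simp [hw]
  have hwm : w ∈ (M.del (rest M φ C)).R := by
    rw [mem_R_iff]
    constructor
    · intro e he
      rw [hwapp, if_neg]
      rintro (rfl | rfl | rfl)
      · exact he (Finset.mem_sdiff.2 ⟨hcS, fun h2 => (mem_rest.1 h2).2.1 hc⟩)
      · exact he (Finset.mem_sdiff.2 ⟨h.mem _, fun h2 => (mem_rest.1 h2).2.2 _ rfl⟩)
      · exact he (Finset.mem_sdiff.2 ⟨h.mem _, fun h2 => (mem_rest.1 h2).2.2 _ rfl⟩)
    · intro z hz
      rw [mem_Z_del] at hz
      have h1 := ht z hz.1 hz.2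
      rw [hw, ind_dot, Finset.sum_insert, Finset.sum_insert, Finset.sum_singleton]
      · rw [z_add_eq_zero]
        exact h1
      · rw [Finset.mem_singleton]
        exact fun hq => q3 (h.inj hq)
      · simp only [Finset.mem_insert, Finset.mem_singleton, not_or]
        exact ⟨fun hq => hc1 _ hq.symm, fun hq => hc1 _ hq.symm⟩
  rw [mem_del'] at hwm
  obtain ⟨-, ρ, hρ, hρ2⟩ := hwm
  have hout : ∀ x ∈ C, x ∈ M.S \ rest M φ C := fun x hx =>
    Finset.mem_sdiff.2 ⟨h.sub hx, fun h2 => (mem_rest.1 h2).2.1 hx⟩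
  have houtφ : ∀ i, φ i ∈ M.S \ rest M φ C := fun i =>
    Finset.mem_sdiff.2 ⟨h.mem i, fun h2 => (mem_rest.1 h2).2.2 _ rfl⟩
  refine ⟨ρ, hρ, fun x hx => ?_, ?_, fun i => ?_⟩
  · have hx' := Finset.mem_erase.1 hx
    rw [hρ2 x (hout x hx'.2), hwapp, if_neg]
    rintro (h1 | h1 | h1)
    · exact hx'.1 h1
    · exact h.out _ (h1 ▸ hx'.2)
    · exact h.out _ (h1 ▸ hx'.2)
  · rw [hρ2 c (hout c hc), hwapp, if_pos (Or.inl rfl)]
  · rw [hρ2 _ (houtφ i), hwapp]
    have e1 : (φ i = c ∨ φ i = φ (Q1 t) ∨ φ i = φ (Q2 t)) ↔ (i = Q1 t ∨ i = Q2 t) := by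
      constructor
      · rintro (h1 | h1 | h1)
        · exact absurd h1 (hc1 i)
        · exact Or.inl (h.inj h1)
        · exact Or.inr (h.inj h1)
      · rintro (h1 | h1)
        · exact Or.inr (Or.inl (by rw [h1]))
        · exact Or.inr (Or.inr (by rw [h1]))
    simp only [e1]

end SEY.Ind
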