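import Pool.Agent.Helper35.SEY.IndStep
import Pool.Agent.Helper35.SEY.IndCert

/-!
IND-3 (the deleted elements of a minimal counterexample).

ext_minor: for `i : Fin 6` choose `F i ∈ M.R` with `F i|C = 0`, `F i (φ j) = R12 i j` (field r1) and put
`v i = F i d`.  (1) If `f ∈ M.R`, `f|C = 0` and `f (φ j) = ∑ i, a i * R12 i j` for all `j` then
`f + ∑ i, a i • F i` is a row which vanishes on `C` and on the `φ j`, so by `h0` it vanishes at `d`:
`f d = ∑ i, a i * v i`.  (2) `HasMinor (ext R12 v) M` with the function `Fin.snoc φ d` and the set `C`: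
injective since `φ i ≠ d`; the rows `F i` have the values `ext R12 v i`; for a row `f` with `f|C = 0`
take the coefficients of r2 and (1).  (`ext R12 v i` is `Fin.snoc (R12 i) (v i)`: `Fin.snoc_castSucc`,
`Fin.snoc_last`, and `Fin.lastCases`.)

dside: let `h0` be the hypothesis of `ext_minor`.  If `h0` fails there is `f ∈ M.R` with `f|C = 0`,
`f ∘ φ = 0`, `f d = 1`: `step_Q` with `v = d`, `lab_del` and `lab_con_of` (second alternative) contradicts
`hG`.  If `h0` holds take `v` from `ext_minor`; `okcol` (IndCert): `v = 0`: all rows with `f|C = 0` have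
`f d = 0` (r2 and `ext_minor`): `step_Q` with `lab_con_of` (first alternative).  `v` = column `j`:
`f d = ∑ a i * R12 i j = f (φ j)`: `step_P`.  `v` = sum of the columns `P1 t`, `P2 t`: the conclusion.
-/

namespace SEY.Ind

open Finset BM SEY.Sp

variable {E : Type} [Fintype E] [DecidableEq E] {M : BM E} {φ : Fin 12 → E} {C : Finset E}

theorem ext_minor (h : Lab R12 M φ C) {d : E} (hd : d ∈ rest M φ C)
    (h0 : ∀ f ∈ M.R, (∀ c ∈ C, f c = 0) → (∀ j, f (φ j) = 0) → f d = 0) :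
    ∃ v : Fin 6 → ZMod 2, HasMinor (ext R12 v) M ∧ ∀ f ∈ M.R, (∀ c ∈ C, f c = 0) →
      ∀ a : Fin 6 → ZMod 2, (∀ j, f (φ j) = ∑ i, a i * R12 i j) → f d = ∑ i, a i * v i := by
  obtain ⟨hdS, hdC, hdφ⟩ := mem_rest.1 hd
  choose F hFR hFC hFφ using h.r1
  have key : ∀ f ∈ M.R, (∀ c ∈ C, f c = 0) →
      ∀ a : Fin 6 → ZMod 2, (∀ j, f (φ j) = ∑ i, a i * R12 i j) →
        f d = ∑ i, a i * F i d := by
    intro f hf hfC a ha
    have h1 : f + ∑ i, a i • F i ∈ M.R :=
      M.R.add_mem hf (Submodule.sum_mem _ fun i _ => M.R.smul_mem _ (hFR i))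
    have h2 : ∀ e, (f + ∑ i, a i • F i) e = f e + ∑ i, a i * F i e := by
      intro e
      rw [Pi.add_apply, Finset.sum_apply]
      rfl
    have h3 := h0 _ h1 (fun c hc => by
        rw [h2, hfC c hc, zero_add]
        exact Finset.sum_eq_zero fun i _ => by rw [hFC i c hc, mul_zero])
      (fun j => by
        rw [h2, ha j]
        simp only [hFφ]
        exact z_add_self _)
    rw [h2] at h3
    exact z_add_eq_zero.1 h3
  refine ⟨fun i => F i d, ?_, key⟩
  refine hasMinor_iff.2 ⟨Fin.snoc (α := fun _ => E) φ d, C, ?_, ?_, h.sub, ?_, ?_, ?_⟩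
  · intro x y
    refine Fin.lastCases ?_ (fun i => ?_) x
    · refine Fin.lastCases (fun _ => rfl) (fun j => ?_) y
      intro hxy
      rw [Fin.snoc_last, Fin.snoc_castSucc] at hxy
      exact absurd hxy.symm (hdφ j)
    · refine Fin.lastCases ?_ (fun j => ?_) y
      · intro hxy
        rw [Fin.snoc_last, Fin.snoc_castSucc] at hxy
        exact absurd hxy (hdφ i)
      · intro hxy
        rw [Fin.snoc_castSucc, Fin.snoc_castSucc] at hxy
        rw [h.inj hxy]
  · intro x
    refine Fin.lastCases ?_ (fun i => ?_) x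
    · rw [Fin.snoc_last]
      exact hdS
    · rw [Fin.snoc_castSucc]
      exact h.mem i
  · intro x
    refine Fin.lastCases ?_ (fun i => ?_) x
    · rw [Fin.snoc_last]
      exact hdC
    · rw [Fin.snoc_castSucc]
      exact h.out i
  · intro i
    refine ⟨F i, hFR i, hFC i, fun x => ?_⟩
    unfold SEY.Sp.ext
    refine Fin.lastCases ?_ (fun j => ?_) x
    · rw [Fin.snoc_last, Fin.snoc_last]
    · rw [Fin.snoc_castSucc, Fin.snoc_castSucc]
      exact hFφ i j
  · intro f hf hfC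
    obtain ⟨a, ha⟩ := h.r2 f hf hfC
    refine ⟨a, fun x => ?_⟩
    unfold SEY.Sp.ext
    refine Fin.lastCases ?_ (fun j => ?_) x
    · simp only [Fin.snoc_last]
      exact key f hf hfC a ha
    · simp only [Fin.snoc_castSucc]
      exact ha j

theorem dside (hF : NoF M) (hI : IH E M.S.card) (hG : ¬ Good M φ) (h : Lab R12 M φ C) {d : E}
    (hd : d ∈ rest M φ C) :
    ∃ t : Fin 4, ∀ f ∈ M.R, (∀ c ∈ C, f c = 0) → f d = f (φ (P1 t)) + f (φ (P2 t)) := by
  obtain ⟨hdS, hdC, hdφ⟩ := mem_rest.1 hd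
  have hdel : Lab R12 (M.del {d}) φ C := lab_del h hdC hdφ
  by_cases h0 : ∀ f ∈ M.R, (∀ c ∈ C, f c = 0) → (∀ j, f (φ j) = 0) → f d = 0
  · obtain ⟨v, hv, hk⟩ := ext_minor h hd h0
    rcases okcol hF v hv with hz | ⟨j, hj⟩ | ⟨t, ht⟩
    · refine absurd (step_Q hF hI hdS hdφ hdel
        (lab_con_of h hdS hdC hdφ (Or.inl fun f hf hfC => ?_))) hG
      obtain ⟨a, ha⟩ := h.r2 f hf hfC
      rw [hk f hf hfC a ha]
      exact Finset.sum_eq_zero fun i _ => by rw [hz i, mul_zero]
    · refine absurd (step_P hF hI h hd (j := j) fun f hf hfC => ?_) hG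
      obtain ⟨a, ha⟩ := h.r2 f hf hfC
      rw [hk f hf hfC a ha, ha j]
      exact Finset.sum_congr rfl fun i _ => by rw [hj i]
    · refine ⟨t, fun f hf hfC => ?_⟩
      obtain ⟨a, ha⟩ := h.r2 f hf hfC
      rw [hk f hf hfC a ha, ha (P1 t), ha (P2 t), ← Finset.sum_add_distrib]
      exact Finset.sum_congr rfl fun i _ => by rw [ht i, mul_add]
  · push Not at h0
    obtain ⟨f, hf, hfC, hfφ, hfd⟩ := h0
    exact absurd (step_Q hF hI hdS hdφ hdel
      (lab_con_of h hdS hdC hdφ (Or.inr ⟨f, hf, hfC, z_ne_zero.1 hfd, hfφ⟩))) hG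

end SEY.Ind
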