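import Pool.Agent.Helper35.SEY.IndDefs

/-!
IND-1 (connectivity lemmas for the induced 3-separation of R12).

lam_le_two: every `f ∈ M.R` is `u + w + a • g1 + b • g2` with `u = mask X (f + a • g1 + b • g2)` in
`M.RIn X` and `w = (f + a • g1 + b • g2) + u` in `M.RIn (M.S \ X)` (characteristic 2).  So
`M.R ≤ M.RIn X ⊔ M.RIn (M.S \ X) ⊔ span {g1, g2}` and `rk ≤ dR X + dR (S \ X) + 2`; `lam_add_dR`.

lam_one_comb: let `W = M.RIn X ⊔ M.RIn (M.S \ X)`.  The two spaces meet in `0`, so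
`finrank W = dR X + dR (S \ X) = rk - lam X ≥ rk - 1`.  If `g1 ∈ W` take `(a, b) = (1, 0)`.  Otherwise
`W ⊔ span {g1}` has dimension at least `rk` and is contained in `M.R`, so it is `M.R` and contains
`g2`: `g2 = w + a • g1` with `w ∈ W`, take `(a, 1)`.  If `g ∈ W`, `g = u + w`, then `mask X g = u ∈ M.R`.

two_le_lam_del: suppose `lam Y ≤ 1` in `M' = M.del {d, φ j}`.  Take the rows `f2`, `f3` of `M` with
`f|C = 0`, `f ∘ φ = R12 2`, `R12 3` (field r1 of `Lab`), `g1`, `g2` = their masks to `M.S \ {d, φ j}`.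
`lam_one_comb` gives `(a, b) ≠ 0` and (`mem_del'`) a row `f ∈ M.R` which agrees with
`mask Y (a • f2 + b • f3)` on `M.S \ {d, φ j}`.  `f` vanishes on `C` (`d ∉ C`, `φ j ∉ C`), so by field r2
`f (φ i) = ∑ k, w k * R12 k i`, and for `i ≠ j` (injectivity, `φ i ≠ d`) this is
`a * R12 2 i + b * R12 3 i` if `i < 6` and `0` if `6 ≤ i`.  This contradicts the finite check
`fin_check` below (by `decide`, possibly after writing it over the 64 vectors, or use cycles: for
each `j` and each `(a, b)` there is a cycle of `R12` avoiding `j` which meets the `A` part in an odd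
number of elements).

fin_row: a row of `R12` with at most one nonzero entry is zero (`decide`, or use cycles).
-/

namespace SEY.Ind

open Finset BM SEY.Sp

variable {E : Type} [Fintype E] [DecidableEq E] {M : BM E} {φ : Fin 12 → E} {C : Finset E}

private theorem zid1 : ∀ x y z a b : ZMod 2,
    x = x + a * y + b * z + (x + a * y + b * z + (x + a * y + b * z)) + (a * y + b * z) := by
  decide

private theorem zid2 : ∀ x y z a b : ZMod 2,
    x = 0 + (x + a * y + b * z + 0) + (a * y + b * z) := by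
  decide

private theorem zid3 : ∀ x y : ZMod 2, x + (y + x) = y := by
  decide

theorem lam_le_two {X : Finset E} (hX : X ⊆ M.S) {g1 g2 : E → ZMod 2} (h1 : g1 ∈ M.R)
    (h2 : g2 ∈ M.R) (h : ∀ f ∈ M.R, ∃ a b : ZMod 2, mask X (f + a • g1 + b • g2) ∈ M.R) :
    M.lam X ≤ 2 := by
  classical
  have hle : M.R ≤ M.RIn X ⊔ M.RIn (M.S \ X) ⊔
      Submodule.span (ZMod 2) (({g1, g2} : Finset (E → ZMod 2)) : Set (E → ZMod 2)) := by
    intro f hf
    obtain ⟨a, b, hab⟩ := h f hf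
    have hF : f + a • g1 + b • g2 ∈ M.R :=
      M.R.add_mem (M.R.add_mem hf (M.R.smul_mem a h1)) (M.R.smul_mem b h2)
    have hu : mask X (f + a • g1 + b • g2) ∈ M.RIn X := by
      refine M.mem_RIn.2 ⟨hab, fun e he => ?_⟩
      rw [mask_apply, if_neg he]
    have hw : (f + a • g1 + b • g2) + mask X (f + a • g1 + b • g2) ∈ M.RIn (M.S \ X) := by
      refine M.mem_RIn.2 ⟨M.R.add_mem hF hab, fun e he => ?_⟩
      rw [Pi.add_apply, mask_apply]
      by_cases heX : e ∈ X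
      · rw [if_pos heX, z_add_self]
      · rw [if_neg heX, add_zero]
        refine M.supp _ hF e (fun heS => he ?_)
        exact Finset.mem_sdiff.2 ⟨heS, heX⟩
    have hs1 : g1 ∈ Submodule.span (ZMod 2)
        (({g1, g2} : Finset (E → ZMod 2)) : Set (E → ZMod 2)) :=
      Submodule.subset_span (by simp)
    have hs2 : g2 ∈ Submodule.span (ZMod 2)
        (({g1, g2} : Finset (E → ZMod 2)) : Set (E → ZMod 2)) :=
      Submodule.subset_span (by simp)
    have hf2 : f = (mask X (f + a • g1 + b • g2) +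
        ((f + a • g1 + b • g2) + mask X (f + a • g1 + b • g2))) + (a • g1 + b • g2) := by
      funext e
      simp only [Pi.add_apply, Pi.smul_apply, smul_eq_mul, mask_apply]
      by_cases heX : e ∈ X
      · simp only [if_pos heX]
        exact zid1 (f e) (g1 e) (g2 e) a b
      · simp only [if_neg heX]
        exact zid2 (f e) (g1 e) (g2 e) a b
    rw [hf2]
    refine Submodule.add_mem_sup (Submodule.add_mem_sup hu hw) ?_
    exact Submodule.add_mem _ (Submodule.smul_mem _ a hs1) (Submodule.smul_mem _ b hs2)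
  have e1 : M.rk ≤ M.dR X + M.dR (M.S \ X) + 2 := by
    have e2 := Submodule.finrank_mono hle
    have e3 := Submodule.finrank_add_le_finrank_add_finrank (M.RIn X ⊔ M.RIn (M.S \ X))
      (Submodule.span (ZMod 2) (({g1, g2} : Finset (E → ZMod 2)) : Set (E → ZMod 2)))
    have e4 := Submodule.finrank_add_le_finrank_add_finrank (M.RIn X) (M.RIn (M.S \ X))
    have e5 : Module.finrank (ZMod 2) (Submodule.span (ZMod 2)
        (({g1, g2} : Finset (E → ZMod 2)) : Set (E → ZMod 2))) ≤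
        ({g1, g2} : Finset (E → ZMod 2)).card :=
      finrank_span_finset_le_card (R := ZMod 2) ({g1, g2} : Finset (E → ZMod 2))
    have e6 : ({g1, g2} : Finset (E → ZMod 2)).card ≤ 2 := Finset.card_le_two
    unfold BM.rk BM.dR
    omega
  have e7 := M.lam_add_dR X
  omega

theorem lam_one_comb {X : Finset E} (hX : X ⊆ M.S) (h : M.lam X ≤ 1) {g1 g2 : E → ZMod 2}
    (h1 : g1 ∈ M.R) (h2 : g2 ∈ M.R) :
    ∃ a b : ZMod 2, (a ≠ 0 ∨ b ≠ 0) ∧ mask X (a • g1 + b • g2) ∈ M.R := by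
  classical
  have key : ∀ g ∈ M.RIn X ⊔ M.RIn (M.S \ X), mask X g ∈ M.R := by
    intro g hg
    obtain ⟨u, hu, w, hw, rfl⟩ := Submodule.mem_sup.1 hg
    have hu' := M.mem_RIn.1 hu
    have hw' := M.mem_RIn.1 hw
    have : mask X (u + w) = u := by
      funext e
      rw [mask_apply, Pi.add_apply]
      by_cases he : e ∈ X
      · rw [if_pos he, hw'.2 e (fun h => (Finset.mem_sdiff.1 h).2 he), add_zero]
      · rw [if_neg he, hu'.2 e he]
    rw [this]
    exact hu'.1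
  by_cases hg : g1 ∈ M.RIn X ⊔ M.RIn (M.S \ X)
  · refine ⟨1, 0, Or.inl one_ne_zero, ?_⟩
    rw [one_smul, zero_smul, add_zero]
    exact key g1 hg
  · have hle : (M.RIn X ⊔ M.RIn (M.S \ X)) ⊔ Submodule.span (ZMod 2) {g1} ≤ M.R := by
      refine sup_le (sup_le (fun f hf => (M.mem_RIn.1 hf).1) (fun f hf => (M.mem_RIn.1 hf).1)) ?_
      rw [Submodule.span_singleton_le_iff_mem]
      exact h1
    have hlt : M.RIn X ⊔ M.RIn (M.S \ X) <
        (M.RIn X ⊔ M.RIn (M.S \ X)) ⊔ Submodule.span (ZMod 2) {g1} := by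
      refine lt_of_le_of_ne le_sup_left (fun heq => hg ?_)
      rw [heq]
      exact Submodule.mem_sup_right (Submodule.mem_span_singleton_self g1)
    have e1 := Submodule.finrank_lt_finrank_of_lt hlt
    have e2 := Submodule.finrank_sup_add_finrank_inf_eq (M.RIn X) (M.RIn (M.S \ X))
    have e3 : M.RIn X ⊓ M.RIn (M.S \ X) = ⊥ := by
      rw [eq_bot_iff]
      intro f hf
      obtain ⟨hf1, hf2⟩ := Submodule.mem_inf.1 hf
      rw [Submodule.mem_bot]
      funext e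
      by_cases he : e ∈ X
      · exact (M.mem_RIn.1 hf2).2 e (fun h => (Finset.mem_sdiff.1 h).2 he)
      · exact (M.mem_RIn.1 hf1).2 e he
    rw [e3, finrank_bot, add_zero] at e2
    have e4 := M.lam_add_dR X
    unfold BM.rk BM.dR at e4
    have e5 : Module.finrank (ZMod 2) M.R ≤ Module.finrank (ZMod 2)
        ((M.RIn X ⊔ M.RIn (M.S \ X)) ⊔ Submodule.span (ZMod 2) {g1} :
          Submodule (ZMod 2) (E → ZMod 2)) := by omega
    have e6 := Submodule.eq_of_le_of_finrank_le hle e5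
    rw [← e6] at h2
    obtain ⟨w, hw, v, hv, hwv⟩ := Submodule.mem_sup.1 h2
    obtain ⟨a, rfl⟩ := Submodule.mem_span_singleton.1 hv
    refine ⟨a, 1, Or.inr one_ne_zero, ?_⟩
    have e7 : a • g1 + (1 : ZMod 2) • g2 = w := by
      rw [one_smul, ← hwv]
      funext e
      simp only [Pi.add_apply]
      exact zid3 _ _
    rw [e7]
    exact key w hw

private theorem sum12 (w : Fin 6 → ZMod 2) :
    (∑ k, w k * R12 k 0 = w 0) ∧ (∑ k, w k * R12 k 1 = w 1) ∧
    (∑ k, w k * R12 k 2 = w 0 + w 1) ∧ (∑ k, w k * R12 k 3 = w 0 + w 2) ∧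
    (∑ k, w k * R12 k 4 = w 1 + w 3) ∧ (∑ k, w k * R12 k 5 = w 0 + w 1 + w 2 + w 3) ∧
    (∑ k, w k * R12 k 6 = w 4) ∧ (∑ k, w k * R12 k 7 = w 2 + w 3 + w 4) ∧
    (∑ k, w k * R12 k 8 = w 3 + w 4) ∧ (∑ k, w k * R12 k 9 = w 5) ∧
    (∑ k, w k * R12 k 10 = w 2 + w 3 + w 5) ∧ (∑ k, w k * R12 k 11 = w 3 + w 5) := by
  simp [Fin.sum_univ_succ, R12]
  refine ⟨?_, ?_, ?_⟩ <;> ring

private theorem aux12 : ∀ (j : Fin 12) (a b w0 w1 w2 w3 w4 w5 : ZMod 2),
    (∀ i : Fin 12, i ≠ j → ![w0, w1, w0 + w1, w0 + w2, w1 + w3, w0 + w1 + w2 + w3,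
      w4, w2 + w3 + w4, w3 + w4, w5, w2 + w3 + w5, w3 + w5] i =
      ![0, 0, 0, a, b, a + b, 0, 0, 0, 0, 0, 0] i) → a = 0 ∧ b = 0 := by
  decide +kernel

theorem fin_check (j : Fin 12) (a b : ZMod 2) (hab : a ≠ 0 ∨ b ≠ 0) (w : Fin 6 → ZMod 2)
    (h1 : ∀ i : Fin 12, i < 6 → i ≠ j → ∑ k, w k * R12 k i = a * R12 2 i + b * R12 3 i)
    (h2 : ∀ i : Fin 12, 6 ≤ i → i ≠ j → ∑ k, w k * R12 k i = 0) : False := by
  obtain ⟨c0, c1, c2, c3, c4, c5, c6, c7, c8, c9, c10, c11⟩ := sum12 w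
  have k0 := h1 0 (by decide)
  have k1 := h1 1 (by decide)
  have k2 := h1 2 (by decide)
  have k3 := h1 3 (by decide)
  have k4 := h1 4 (by decide)
  have k5 := h1 5 (by decide)
  have k6 := h2 6 (by decide)
  have k7 := h2 7 (by decide)
  have k8 := h2 8 (by decide)
  have k9 := h2 9 (by decide)
  have k10 := h2 10 (by decide)
  have k11 := h2 11 (by decide)
  rw [c0] at k0
  rw [c1] at k1
  rw [c2] at k2
  rw [c3] at k3
  rw [c4] at k4
  rw [c5] at k5
  rw [c6] at k6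
  rw [c7] at k7
  rw [c8] at k8
  rw [c9] at k9
  rw [c10] at k10
  rw [c11] at k11
  clear h1 h2 c0 c1 c2 c3 c4 c5 c6 c7 c8 c9 c10 c11
  generalize w 0 = w0 at *
  generalize w 1 = w1 at *
  generalize w 2 = w2 at *
  generalize w 3 = w3 at *
  generalize w 4 = w4 at *
  generalize w 5 = w5 at *
  clear w
  have r0 : R12 2 0 = 0 ∧ R12 3 0 = 0 ∧ R12 2 1 = 0 ∧ R12 3 1 = 0 ∧ R12 2 2 = 0 ∧ R12 3 2 = 0 ∧
      R12 2 3 = 1 ∧ R12 3 3 = 0 ∧ R12 2 4 = 0 ∧ R12 3 4 = 1 ∧ R12 2 5 = 1 ∧ R12 3 5 = 1 := by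
    decide
  obtain ⟨q1, q2, q3, q4, q5, q6, q7, q8, q9, q10, q11, q12⟩ := r0
  rw [q1, q2, mul_zero, mul_zero, add_zero] at k0
  rw [q3, q4, mul_zero, mul_zero, add_zero] at k1
  rw [q5, q6, mul_zero, mul_zero, add_zero] at k2
  rw [q7, q8, mul_zero, mul_one, add_zero] at k3
  rw [q9, q10, mul_zero, mul_one, zero_add] at k4
  rw [q11, q12, mul_one, mul_one] at k5
  clear q1 q2 q3 q4 q5 q6 q7 q8 q9 q10 q11 q12
  have hz := aux12 j a b w0 w1 w2 w3 w4 w5 (by
    intro i hi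
    fin_cases i
    · exact k0 hi
    · exact k1 hi
    · exact k2 hi
    · exact k3 hi
    · exact k4 hi
    · exact k5 hi
    · exact k6 hi
    · exact k7 hi
    · exact k8 hi
    · exact k9 hi
    · exact k10 hi
    · exact k11 hi)
  rcases hab with h | h
  · exact h hz.1
  · exact h hz.2

theorem fin_row (j : Fin 12) (w : Fin 6 → ZMod 2)
    (h : ∀ i : Fin 12, i ≠ j → ∑ k, w k * R12 k i = 0) : ∑ k, w k * R12 k j = 0 := by
  obtain ⟨c0, c1, c2, c3, c4, c5, c6, c7, c8, c9, c10, c11⟩ := sum12 w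
  have k0 := h 0
  have k1 := h 1
  have k2 := h 2
  have k3 := h 3
  have k4 := h 4
  have k5 := h 5
  have k6 := h 6
  have k7 := h 7
  have k8 := h 8
  have k9 := h 9
  have k10 := h 10
  have k11 := h 11
  rw [c0] at k0
  rw [c1] at k1
  rw [c2] at k2
  rw [c3] at k3
  rw [c4] at k4
  rw [c5] at k5
  rw [c6] at k6
  rw [c7] at k7
  rw [c8] at k8
  rw [c9] at k9
  rw [c10] at k10
  rw [c11] at k11
  clear h
  have key : (∀ i : Fin 12, i ≠ j → ![w 0, w 1, w 0 + w 1, w 0 + w 2, w 1 + w 3,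
      w 0 + w 1 + w 2 + w 3, w 4, w 2 + w 3 + w 4, w 3 + w 4, w 5, w 2 + w 3 + w 5,
      w 3 + w 5] i = 0) → ![w 0, w 1, w 0 + w 1, w 0 + w 2, w 1 + w 3,
      w 0 + w 1 + w 2 + w 3, w 4, w 2 + w 3 + w 4, w 3 + w 4, w 5, w 2 + w 3 + w 5,
      w 3 + w 5] j = 0 := by
    clear k0 k1 k2 k3 k4 k5 k6 k7 k8 k9 k10 k11 c0 c1 c2 c3 c4 c5 c6 c7 c8 c9 c10 c11
    generalize w 0 = w0
    generalize w 1 = w1
    generalize w 2 = w2
    generalize w 3 = w3
    generalize w 4 = w4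
    generalize w 5 = w5
    clear w
    revert j w0 w1 w2 w3 w4 w5
    decide +kernel
  have hj : ∑ k, w k * R12 k j = ![w 0, w 1, w 0 + w 1, w 0 + w 2, w 1 + w 3,
      w 0 + w 1 + w 2 + w 3, w 4, w 2 + w 3 + w 4, w 3 + w 4, w 5, w 2 + w 3 + w 5,
      w 3 + w 5] j := by
    clear key k0 k1 k2 k3 k4 k5 k6 k7 k8 k9 k10 k11
    fin_cases j
    · exact c0
    · exact c1
    · exact c2
    · exact c3
    · exact c4
    · exact c5
    · exact c6
    · exact c7
    · exact c8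
    · exact c9
    · exact c10
    · exact c11
  rw [hj]
  refine key ?_
  intro i hi
  clear hj key c0 c1 c2 c3 c4 c5 c6 c7 c8 c9 c10 c11
  fin_cases i
  · exact k0 hi
  · exact k1 hi
  · exact k2 hi
  · exact k3 hi
  · exact k4 hi
  · exact k5 hi
  · exact k6 hi
  · exact k7 hi
  · exact k8 hi
  · exact k9 hi
  · exact k10 hi
  · exact k11 hi

theorem two_le_lam_del (h : Lab R12 M φ C) (j : Fin 12) {d : E} (hd : d ∉ C)
    (hd' : ∀ i, φ i ≠ d) {Y : Finset E} (hY : Y ⊆ M.S \ {d, φ j})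
    (h1 : ∀ i : Fin 12, i < 6 → i ≠ j → φ i ∈ Y) (h2 : ∀ i : Fin 12, 6 ≤ i → i ≠ j → φ i ∉ Y) :
    2 ≤ (M.del {d, φ j}).lam Y := by
  by_contra hcon
  have hlam : (M.del {d, φ j}).lam Y ≤ 1 := by omega
  obtain ⟨f2, hf2, hc2, hp2⟩ := h.r1 2
  obtain ⟨f3, hf3, hc3, hp3⟩ := h.r1 3
  have hg1 : mask (M.S \ {d, φ j}) f2 ∈ (M.del {d, φ j}).R := M.mem_del.2 ⟨f2, hf2, rfl⟩
  have hg2 : mask (M.S \ {d, φ j}) f3 ∈ (M.del {d, φ j}).R := M.mem_del.2 ⟨f3, hf3, rfl⟩
  obtain ⟨a, b, hab, hm⟩ := lam_one_comb (M := M.del {d, φ j}) hY hlam hg1 hg2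
  obtain ⟨-, g, hg, hge⟩ := M.mem_del'.1 hm
  have hgC : ∀ c ∈ C, g c = 0 := by
    intro c hc
    have hcS : c ∈ M.S \ {d, φ j} := by
      refine Finset.mem_sdiff.2 ⟨h.sub hc, ?_⟩
      rw [Finset.mem_insert, Finset.mem_singleton]
      rintro (rfl | rfl)
      · exact hd hc
      · exact h.out j hc
    rw [hge c hcS, mask_apply]
    by_cases hcY : c ∈ Y
    · rw [if_pos hcY, Pi.add_apply, Pi.smul_apply, Pi.smul_apply, mask_apply, mask_apply,
        if_pos hcS, if_pos hcS, hc2 c hc, hc3 c hc, smul_zero, smul_zero, add_zero]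
    · rw [if_neg hcY]
  obtain ⟨w, hw⟩ := h.r2 g hg hgC
  have hmem : ∀ i, i ≠ j → φ i ∈ M.S \ {d, φ j} := by
    intro i hij
    refine Finset.mem_sdiff.2 ⟨h.mem i, ?_⟩
    rw [Finset.mem_insert, Finset.mem_singleton]
    rintro (h' | h')
    · exact hd' i h'
    · exact hij (h.inj h')
  refine fin_check j a b hab w ?_ ?_
  · intro i hi hij
    rw [← hw i, hge _ (hmem i hij), mask_apply, if_pos (h1 i hi hij), Pi.add_apply,
      Pi.smul_apply, Pi.smul_apply, mask_apply, mask_apply, if_pos (hmem i hij),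
      if_pos (hmem i hij), hp2 i, hp3 i, smul_eq_mul, smul_eq_mul]
  · intro i hi hij
    rw [← hw i, hge _ (hmem i hij), mask_apply, if_neg (h2 i hi hij)]

end SEY.Ind
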