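import Pool.Agent.Helper35.SEY.IndDefs

/-!
Two-element extensions of R12 (block IND): certificates of Fano minors.
-/

namespace SEY.Ind

open Finset BM SEY.Sp

variable {E : Type} [Fintype E] [DecidableEq E] {M : BM E}

theorem pair0 (hF : NoF M) (h : HasMinor (pairRows 0) M) : False :=
  hF.1 (h.of_finCert compl_F7 (φ := ![2, 7, 13, 5, 0, 12, 3]) (C := {1, 4, 6, 9})
    (a := ![![1, 0, 0, 0, 0, 0, 0], ![0, 0, 1, 0, 0, 0, 0], ![0, 0, 0, 0, 0, 0, 1]])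
    (z := ![![0, 0, 1, 0, 0, 1, 1, 1, 0, 0, 0, 0, 0, 0], ![1, 1, 1, 0, 0, 0, 0, 0, 0, 0, 0, 0, 0, 1], ![0, 1, 0, 0, 1, 0, 1, 1, 0, 0, 0, 0, 1, 1], ![0, 0, 1, 1, 1, 0, 1, 1, 0, 0, 0, 0, 0, 1]])
    (by decide))

theorem pair1 (hF : NoF M) (h : HasMinor (pairRows 1) M) : False :=
  hF.1 (h.of_finCert compl_F7 (φ := ![13, 1, 7, 2, 12, 4, 5]) (C := {0, 3, 6, 9})
    (a := ![![1, 0, 0, 0, 0, 0, 1], ![0, 1, 0, 0, 0, 0, 0], ![0, 0, 0, 1, 0, 0, 0]])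
    (z := ![![1, 1, 1, 0, 0, 0, 0, 0, 0, 0, 0, 0, 0, 1], ![1, 0, 0, 1, 0, 0, 1, 1, 0, 0, 0, 0, 1, 1], ![1, 1, 0, 1, 1, 0, 1, 1, 0, 0, 0, 0, 0, 0], ![1, 1, 0, 0, 0, 1, 1, 1, 0, 0, 0, 0, 0, 1]])
    (by decide))

theorem pair2 (hF : NoF M) (h : HasMinor (pairRows 2) M) : False :=
  hF.1 (h.of_finCert compl_F7 (φ := ![13, 1, 7, 2, 12, 4, 5]) (C := {0, 3, 6, 9})
    (a := ![![1, 0, 0, 0, 0, 0, 1], ![0, 1, 0, 0, 0, 0, 0], ![0, 0, 0, 1, 0, 0, 0]])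
    (z := ![![1, 1, 1, 0, 0, 0, 0, 0, 0, 0, 0, 0, 0, 1], ![0, 0, 0, 0, 0, 0, 1, 1, 0, 0, 0, 0, 1, 1], ![1, 1, 0, 1, 1, 0, 1, 1, 0, 0, 0, 0, 0, 0], ![1, 1, 0, 0, 0, 1, 1, 1, 0, 0, 0, 0, 0, 1]])
    (by decide))

theorem pair3 (hF : NoF M) (h : HasMinor (pairRows 3) M) : False :=
  hF.1 (h.of_finCert compl_F7 (φ := ![2, 4, 6, 5, 9, 7, 10]) (C := {0, 1, 3, 12})
    (a := ![![1, 0, 0, 0, 0, 1, 1], ![0, 0, 0, 1, 0, 0, 0], ![0, 0, 0, 0, 1, 1, 0]])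
    (z := ![![1, 1, 1, 1, 1, 1, 0, 0, 0, 0, 0, 0, 0, 0], ![1, 1, 1, 0, 0, 0, 1, 0, 0, 1, 0, 0, 1, 0], ![1, 1, 0, 1, 1, 0, 1, 1, 0, 0, 0, 0, 0, 0], ![0, 0, 1, 1, 1, 0, 1, 0, 0, 0, 1, 0, 1, 0]])
    (by decide))

theorem pair (hF : NoF M) (t : Fin 4) (h : HasMinor (pairRows t) M) : False := by
  fin_cases t
  · exact pair0 hF h
  · exact pair1 hF h
  · exact pair2 hF h
  · exact pair3 hF h

end SEY.Ind
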