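import Pool.Agent.Helper35.SEY.IndLam
import Pool.Agent.Helper73.SEY.SpUncr
import Pool.Agent.Helper73.SEY.SpLab

/-!
IND-2 (the two uncrossing steps for R12).  `Lab`, `rest`, `lab_del`, `lab_update`, ... are those of
`Pool/Agent/Helper73/SEY` (use the stubs).

step_Q: `IH` for `M.del {v}` and `M.con {v}` (`NoF.del`, `NoF.con`; the ground sets `M.S \ {v}` have one
element less) gives `X1` with `(M.del {v}).lam X1 ≤ 2` and `X2` with `(M.con {v}).lam X2 ≤ 2`, both
contain `φ i` for `i < 6`, do not contain `φ i` for `6 ≤ i`, and do not contain `v`.  `BM.uncross`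
(Helper71/SEYApi): `M.lam (X1 ∩ X2) + M.lam (insert v (X1 ∪ X2)) ≤ 5`, so one of the two sets has
`lam ≤ 2`, and it is good (`v` is not `φ i`).

step_P: write `m = φ j`.  `X1`: `IH` for `M.del {d}`, `φ`, `C` (`lab_del`).  `X2`: `IH` for `M.del {m}`,
`Function.update φ j d`, `C` (`lab_update`, then `lab_del`, `m ∉ C`, and `m` is not a value of the updated
function).  hR of `uncross_A`/`uncross_B` (Helper73/SEY/SpUncr): if `f ∈ M.R` vanishes outside `{d, m}`
then `f|C = 0`, `f (φ i) = 0` for `i ≠ j`; by r2 of `Lab` and `fin_row` `f m = 0`, by `hp` `f d = 0`; so `f = 0`.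
* `j < 6`: `X1` contains `m`, not `d`; `X2` contains `d`, not `m`.  `uncross_A`:
  `(M.del {d, m}).lam (X1 ∩ X2) + M.lam (X1 ∪ X2) ≤ 4`, and `two_le_lam_del` for `Y = X1 ∩ X2` (it contains
  `φ i` for `i < 6`, `i ≠ j`) gives `M.lam (X1 ∪ X2) ≤ 2`; `X1 ∪ X2` contains all `φ i`, `i < 6`
  (`m ∈ X1`), and no `φ i` with `6 ≤ i`.
* `6 ≤ j`: `X1`, `X2` contain neither `d` nor `m`.  `uncross_B`:
  `(M.del {d, m}).lam (X1 ∪ X2) + M.lam (X1 ∩ X2) ≤ 4`, `two_le_lam_del` for `Y = X1 ∪ X2`, so
  `M.lam (X1 ∩ X2) ≤ 2` and `X1 ∩ X2` is good.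
-/

namespace SEY.Ind

open Finset BM SEY.Sp

variable {E : Type} [Fintype E] [DecidableEq E] {M : BM E} {φ : Fin 12 → E} {C : Finset E}

omit [Fintype E] in
private theorem card_sdiff_single {S : Finset E} {v : E} (hv : v ∈ S) :
    (S \ {v}).card < S.card := by
  apply Finset.card_lt_card
  refine ⟨sdiff_subset, fun h => ?_⟩
  exact (mem_sdiff.1 (h hv)).2 (mem_singleton_self v)

theorem step_Q (hF : NoF M) (hI : IH E M.S.card) {v : E} (hv : v ∈ M.S) (hv' : ∀ i, φ i ≠ v)
    {C1 C2 : Finset E} (h1 : Lab R12 (M.del {v}) φ C1) (h2 : Lab R12 (M.con {v}) φ C2) :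
    Good M φ := by
  have hcard : (M.S \ {v}).card < M.S.card := card_sdiff_single hv
  obtain ⟨X1, hX1, a1, b1, c1⟩ := hI (M.del {v}) (hF.del _) hcard φ C1 h1
  obtain ⟨X2, hX2, a2, b2, c2⟩ := hI (M.con {v}) (hF.con _) hcard φ C2 h2
  have hX1' : X1 ⊆ M.S \ {v} := hX1
  have hX2' : X2 ⊆ M.S \ {v} := hX2
  have hv1 : v ∉ X1 := fun h => (mem_sdiff.1 (hX1' h)).2 (mem_singleton_self v)
  have hv2 : v ∉ X2 := fun h => (mem_sdiff.1 (hX2' h)).2 (mem_singleton_self v)
  have hu := M.uncross hv hv1 hv2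
  by_cases hl : M.lam (X1 ∩ X2) ≤ 2
  · refine ⟨X1 ∩ X2, ?_, fun i hi => mem_inter.2 ⟨a1 i hi, a2 i hi⟩,
      fun i hi h => b1 i hi (mem_inter.1 h).1, hl⟩
    intro e he
    exact (mem_sdiff.1 (hX1' (mem_inter.1 he).1)).1
  · refine ⟨insert v (X1 ∪ X2), ?_, fun i hi => ?_, fun i hi h => ?_, by omega⟩
    · intro e he
      rcases mem_insert.1 he with rfl | he
      · exact hv
      · rcases mem_union.1 he with he | he
        · exact (mem_sdiff.1 (hX1' he)).1
        · exact (mem_sdiff.1 (hX2' he)).1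
    · exact mem_insert_of_mem (mem_union_left _ (a1 i hi))
    · rcases mem_insert.1 h with h | h
      · exact hv' i h
      · rcases mem_union.1 h with h | h
        · exact b1 i hi h
        · exact b2 i hi h

theorem step_P (hF : NoF M) (hI : IH E M.S.card) (h : Lab R12 M φ C) {d : E}
    (hd : d ∈ rest M φ C) {j : Fin 12}
    (hp : ∀ f ∈ M.R, (∀ c ∈ C, f c = 0) → f d = f (φ j)) : Good M φ := by
  obtain ⟨hdS, hdC, hdφ⟩ := mem_rest.1 hd
  have hmS : φ j ∈ M.S := h.mem j
  have hmC : φ j ∉ C := h.out j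
  have hdm : d ≠ φ j := fun h' => hdφ j h'.symm
  -- the two separations
  obtain ⟨X1, hX1, a1, b1, c1⟩ := hI (M.del {d}) (hF.del _) (card_sdiff_single hdS) φ C
    (lab_del h hdC hdφ)
  have hup := lab_update h hdS hdC hdφ hp
  have hne : ∀ i, Function.update φ j d i ≠ φ j := by
    intro i
    by_cases hij : i = j
    · rw [hij, Function.update_self]
      exact hdm
    · rw [Function.update_of_ne hij]
      exact fun h' => hij (h.inj h')
  obtain ⟨X2, hX2, a2, b2, c2⟩ := hI (M.del {φ j}) (hF.del _) (card_sdiff_single hmS)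
    (Function.update φ j d) C (lab_del hup hmC hne)
  have hX1' : X1 ⊆ M.S \ {d} := hX1
  have hX2' : X2 ⊆ M.S \ {φ j} := hX2
  have hX1S : X1 ⊆ M.S := hX1'.trans sdiff_subset
  have hX2S : X2 ⊆ M.S := hX2'.trans sdiff_subset
  have hd1 : d ∉ X1 := fun h => (mem_sdiff.1 (hX1' h)).2 (mem_singleton_self d)
  have hm2 : φ j ∉ X2 := fun h => (mem_sdiff.1 (hX2' h)).2 (mem_singleton_self _)
  have a2' : ∀ i : Fin 12, i < 6 → i ≠ j → φ i ∈ X2 := by
    intro i hi hij
    have := a2 i hi
    rwa [Function.update_of_ne hij] at this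
  have b2' : ∀ i : Fin 12, 6 ≤ i → i ≠ j → φ i ∉ X2 := by
    intro i hi hij
    have := b2 i hi
    rwa [Function.update_of_ne hij] at this
  -- no nonzero row is contained in the two elements
  have hR : ∀ f ∈ M.R, (∀ e, e ≠ d → e ≠ φ j → f e = 0) → f = 0 := by
    intro f hf h0
    have hC0 : ∀ c ∈ C, f c = 0 := by
      intro c hc
      refine h0 c (fun h' => hdC (h' ▸ hc)) (fun h' => hmC (h' ▸ hc))
    have hi0 : ∀ i : Fin 12, i ≠ j → f (φ i) = 0 := by
      intro i hij
      exact h0 (φ i) (hdφ i) (fun h' => hij (h.inj h'))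
    obtain ⟨w, hw⟩ := h.r2 f hf hC0
    have hj0 : f (φ j) = 0 := by
      rw [hw j]
      exact fin_row j w (fun i hij => by rw [← hw i]; exact hi0 i hij)
    have hd0 : f d = 0 := by rw [hp f hf hC0, hj0]
    funext e
    by_cases h1 : e = d
    · rw [h1, hd0]
      rfl
    · by_cases h2 : e = φ j
      · rw [h2, hj0]
        rfl
      · exact h0 e h1 h2
  by_cases hj : j < 6
  · have hm1 : φ j ∈ X1 := a1 j hj
    have hd2 : d ∈ X2 := by
      have := a2 j hj
      rwa [Function.update_self] at this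
    have hu := uncross_A M hdS hmS hdm hR hX1S hX2S hd1 hm1 hd2 hm2
    have h2 : 2 ≤ (M.del {d, φ j}).lam (X1 ∩ X2) := by
      refine two_le_lam_del h j hdC hdφ ?_ (fun i hi hij => mem_inter.2 ⟨a1 i hi, a2' i hi hij⟩)
        (fun i hi _ h' => b1 i hi (mem_inter.1 h').1)
      intro e he
      rw [mem_inter] at he
      refine mem_sdiff.2 ⟨hX1S he.1, fun h' => ?_⟩
      rcases mem_insert.1 h' with rfl | h'
      · exact hd1 he.1
      · rw [mem_singleton] at h'
        exact hm2 (h' ▸ he.2)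
    refine ⟨X1 ∪ X2, union_subset hX1S hX2S, fun i hi => mem_union_left _ (a1 i hi), ?_, by omega⟩
    intro i hi h'
    rcases mem_union.1 h' with h' | h'
    · exact b1 i hi h'
    · refine b2' i hi (fun hij => ?_) h'
      rw [hij] at hi
      exact absurd hj (not_lt.2 hi)
  · rw [not_lt] at hj
    have hm1 : φ j ∉ X1 := b1 j hj
    have hd2 : d ∉ X2 := by
      have := b2 j hj
      rwa [Function.update_self] at this
    have hu := uncross_B M hdS hmS hdm hR hX1S hX2S hd1 hm1 hd2 hm2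
    have h2 : 2 ≤ (M.del {d, φ j}).lam (X1 ∪ X2) := by
      refine two_le_lam_del h j hdC hdφ ?_ (fun i hi _ => mem_union_left _ (a1 i hi))
        (fun i hi hij h' => ?_)
      · intro e he
        rcases mem_union.1 he with he | he
        · refine mem_sdiff.2 ⟨hX1S he, fun h' => ?_⟩
          rcases mem_insert.1 h' with rfl | h'
          · exact hd1 he
          · rw [mem_singleton] at h'
            exact hm1 (h' ▸ he)
        · refine mem_sdiff.2 ⟨hX2S he, fun h' => ?_⟩
          rcases mem_insert.1 h' with rfl | h'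
          · exact hd2 he
          · rw [mem_singleton] at h'
            exact hm2 (h' ▸ he)
      · rcases mem_union.1 h' with h' | h'
        · exact b1 i hi h'
        · exact b2' i hi hij h'
    refine ⟨X1 ∩ X2, inter_subset_left.trans hX1S, fun i hi => mem_inter.2 ⟨a1 i hi, ?_⟩,
      fun i hi h' => b1 i hi (mem_inter.1 h').1, by omega⟩
    refine a2' i hi (fun hij => ?_)
    rw [hij] at hi
    exact absurd hj (not_le.2 hi)

end SEY.Ind
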